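import Mathlib

/-!
# Orientable genus through rotation systems

The combinatorial (Heffter-Edmonds) definition of the orientable genus of a finite connected graph,
and the face count of triangular rotation systems.
-/

set_option autoImplicit false

namespace Pool.Agent.H63.KG

variable {W : Type*}

/-- A rotation system of the graph `Γ`: at every vertex `v` the permutation `π v` permutes the
neighbours of `v` in one cycle (the cyclic order of the edges around `v`). -/
def IsRotation (Γ : SimpleGraph W) (π : W → Equiv.Perm W) : Prop :=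
  ∀ v, (π v).IsCycleOn (Γ.neighborSet v)

/-- Face tracing: the dart (directed edge) `(u, v)` is followed by the dart `(v, π v u)`. -/
def FaceStep (Γ : SimpleGraph W) (π : W → Equiv.Perm W) (d e : Γ.Dart) : Prop :=
  e.fst = d.snd ∧ e.snd = π d.snd d.fst

/-- The number of faces of the embedding given by a rotation system: the number of orbits of face
tracing on the darts. -/
noncomputable def numFaces (Γ : SimpleGraph W) (π : W → Equiv.Perm W) : ℕ :=
  Nat.card (Quot (FaceStep Γ π))

/-- The orientable genus of a finite connected graph with at least one edge: the least `g ≥ 0` such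
that some rotation system satisfies Euler's formula `|V| - |E| + |F| = 2 - 2 g`, i.e. the least
genus of a closed orientable surface in which the graph has a cellular embedding. -/
noncomputable def orientableGenus (Γ : SimpleGraph W) : ℕ :=
  sInf {g : ℕ | ∃ π : W → Equiv.Perm W, IsRotation Γ π ∧
    (Nat.card W : ℤ) - Nat.card Γ.edgeSet + numFaces Γ π = 2 - 2 * (g : ℤ)}

/-- the next dart in face tracing -/
def nextDart {Γ : SimpleGraph W} {π : W → Equiv.Perm W} (h : IsRotation Γ π) (d : Γ.Dart) :
    Γ.Dart :=
  ⟨(d.snd, π d.snd d.fst), (h d.snd).1.mapsTo d.adj.symm⟩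

theorem faceStep_iff {Γ : SimpleGraph W} {π : W → Equiv.Perm W} (h : IsRotation Γ π)
    (d e : Γ.Dart) : FaceStep Γ π d e ↔ e = nextDart h d := by
  constructor
  · rintro ⟨h1, h2⟩
    ext
    · exact h1
    · exact h2
  · rintro rfl
    exact ⟨rfl, rfl⟩

theorem mk_nextDart {Γ : SimpleGraph W} {π : W → Equiv.Perm W} (h : IsRotation Γ π)
    (d : Γ.Dart) : Quot.mk (FaceStep Γ π) (nextDart h d) = Quot.mk (FaceStep Γ π) d :=
  (Quot.sound ((faceStep_iff h d _).2 rfl)).symm

theorem card_dart [Finite W] (Γ : SimpleGraph W) :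
    Nat.card Γ.Dart = 2 * Nat.card Γ.edgeSet := by
  classical
  haveI := Fintype.ofFinite W
  haveI : DecidableRel Γ.Adj := Classical.decRel _
  rw [Nat.card_eq_fintype_card, Γ.dart_card_eq_twice_card_edges, Nat.card_eq_fintype_card,
    SimpleGraph.edgeFinset, Set.toFinset_card]

/-- In a rotation system of a graph of minimum degree at least two every face has at least three
sides. -/
theorem three_mul_numFaces_le [Finite W] {Γ : SimpleGraph W} {π : W → Equiv.Perm W}
    (h : IsRotation Γ π) (hdeg : ∀ v w, Γ.Adj v w → ∃ w', Γ.Adj v w' ∧ w' ≠ w) :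
    3 * numFaces Γ π ≤ 2 * Nat.card Γ.edgeSet := by
  classical
  rw [← card_dart]
  haveI : Finite Γ.Dart := by
    haveI := Fintype.ofFinite W
    haveI : DecidableRel Γ.Adj := Classical.decRel _
    infer_instance
  have hnofix : ∀ v w, Γ.Adj v w → π v w ≠ w := by
    intro v w hvw
    obtain ⟨w', h1, h2⟩ := hdeg v w hvw
    exact (h v).apply_ne ⟨w, hvw, w', h1, fun e => h2 e.symm⟩ hvw
  set φ := nextDart h with hφ
  have h01 : ∀ d : Γ.Dart, φ d ≠ d := by
    intro d hd
    have := congrArg (fun x : Γ.Dart => x.fst) hd
    exact d.adj.ne this.symm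
  have h02 : ∀ d : Γ.Dart, φ (φ d) ≠ d := by
    intro d hd
    have := congrArg (fun x : Γ.Dart => x.fst) hd
    exact hnofix d.snd d.fst d.adj.symm this
  let F : Quot (FaceStep Γ π) × Fin 3 → Γ.Dart := fun p => φ^[(p.2 : ℕ)] p.1.out
  have hF : Function.Injective F := by
    rintro ⟨q, i⟩ ⟨q', j⟩ hij
    have hmk : ∀ (m : ℕ) (d : Γ.Dart), Quot.mk (FaceStep Γ π) (φ^[m] d) =
        Quot.mk (FaceStep Γ π) d := by
      intro m
      induction m with
      | zero => intro d; rfl
      | succ m ih =>
        intro d
        rw [Function.iterate_succ_apply, ih]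
        exact mk_nextDart h d
    have hq : q = q' := by
      have := congrArg (Quot.mk (FaceStep Γ π)) hij
      simp only [F] at this
      rw [hmk, hmk, Quot.out_eq, Quot.out_eq] at this
      exact this
    subst hq
    simp only [F] at hij
    have : i = j := by
      fin_cases i <;> fin_cases j <;> simp at hij ⊢
      · exact absurd hij.symm (h01 _)
      · exact absurd hij.symm (h02 _)
      · exact absurd hij (h01 _)
      · exact absurd hij.symm (h01 _)
      · exact absurd hij (h02 _)
      · exact absurd hij (h01 _)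
    rw [this]
  have := Nat.card_le_card_of_injective F hF
  rw [Nat.card_prod, Nat.card_eq_fintype_card (α := Fin 3), Fintype.card_fin] at this
  unfold numFaces
  omega

/-- A triangular rotation system has `2 |E| / 3` faces. -/
theorem three_mul_numFaces_eq [Finite W] {Γ : SimpleGraph W} {π : W → Equiv.Perm W}
    (h : IsRotation Γ π) (hdeg : ∀ v w, Γ.Adj v w → ∃ w', Γ.Adj v w' ∧ w' ≠ w)
    (htri : ∀ u v, Γ.Adj u v → π (π v u) v = u) :
    3 * numFaces Γ π = 2 * Nat.card Γ.edgeSet := by
  classical
  refine le_antisymm (three_mul_numFaces_le h hdeg) ?_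
  rw [← card_dart]
  haveI : Finite Γ.Dart := by
    haveI := Fintype.ofFinite W
    haveI : DecidableRel Γ.Adj := Classical.decRel _
    infer_instance
  set φ := nextDart h with hφ
  have h3 : ∀ d : Γ.Dart, φ (φ (φ d)) = d := by
    intro d
    have hadj : Γ.Adj d.snd (π d.snd d.fst) := (φ d).adj
    have e1 := htri d.fst d.snd d.adj
    have e2 := htri d.snd (π d.snd d.fst) hadj
    rw [e1] at e2
    ext
    · exact e1
    · show π (π (π d.snd d.fst) d.snd) (π d.snd d.fst) = d.snd
      rw [e1]; exact e2
  let F : Quot (FaceStep Γ π) × Fin 3 → Γ.Dart := fun p => φ^[(p.2 : ℕ)] p.1.out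
  have hF : Function.Surjective F := by
    intro d
    have key : ∀ a b : Γ.Dart, Relation.EqvGen (FaceStep Γ π) a b → ∃ i : Fin 3, φ^[(i : ℕ)] a = b := by
      intro a b hab
      induction hab with
      | rel x y hxy =>
        exact ⟨1, ((faceStep_iff h x y).1 hxy).symm⟩
      | refl x => exact ⟨0, rfl⟩
      | symm x y _ ih =>
        obtain ⟨i, hi⟩ := ih
        fin_cases i
        · exact ⟨0, hi.symm⟩
        · refine ⟨2, ?_⟩
          rw [← hi]; exact h3 x
        · refine ⟨1, ?_⟩
          rw [← hi]; exact h3 x
      | trans x y z _ _ ih1 ih2 =>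
        obtain ⟨i, hi⟩ := ih1
        obtain ⟨j, hj⟩ := ih2
        have h3' : φ^[3] = id := funext h3
        have : φ^[(j : ℕ) + i] x = z := by rw [Function.iterate_add_apply, hi, hj]
        refine ⟨⟨((j : ℕ) + i) % 3, Nat.mod_lt _ (by norm_num)⟩, ?_⟩
        rw [← this]
        conv_rhs => rw [← Nat.mod_add_div ((j : ℕ) + i) 3]
        rw [Function.iterate_add_apply, Function.iterate_mul, h3']
        simp
    obtain ⟨i, hi⟩ := key (Quot.mk (FaceStep Γ π) d).out d
      (Quot.eqvGen_exact (Quot.out_eq _))
    exact ⟨(Quot.mk _ d, i), hi⟩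
  have := Nat.card_le_card_of_surjective F hF
  rw [Nat.card_prod, Nat.card_eq_fintype_card (α := Fin 3), Fintype.card_fin] at this
  unfold numFaces
  omega

end Pool.Agent.H63.KG
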