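import Pool.Agent.H63.KG.Defs

/-!
# The derived embedding of an index-two rotation scheme

From two cyclic permutations of the labels `ZMod N ⊕ Bool` obeying the triangle rule we get a
triangular rotation system of the complete graph on `ZMod N ⊕ Bool` minus the edge between the two
vertices `inr false`, `inr true`.
-/

set_option autoImplicit false
set_option linter.style.haveILetI false
set_option linter.unusedSectionVars false

namespace Pool.Agent.H63.KG

open Equiv

/-- If `f` preserves `s` and every point of `s` is reached from `a` then `f` is a cycle on `s`. -/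
theorem isCycleOn_of_reach {W : Type*} (f : Perm W) (s : Set W) (a : W)
    (hs : ∀ x, f x ∈ s ↔ x ∈ s) (h : ∀ x ∈ s, ∃ m : ℕ, (f ^ m) a = x) : f.IsCycleOn s := by
  refine ⟨⟨fun x hx => (hs x).2 hx, f.injective.injOn, ?_⟩, ?_⟩
  · intro y hy
    refine ⟨f.symm y, ?_, by simp⟩
    rw [← hs]; simpa using hy
  · intro x hx y hy
    obtain ⟨m, rfl⟩ := h x hx
    obtain ⟨m', rfl⟩ := h y hy
    have h1 : f.SameCycle a ((f ^ m) a) := ⟨m, by simp⟩
    have h2 : f.SameCycle a ((f ^ m') a) := ⟨m', by simp⟩
    exact h1.symm.trans h2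

variable (N : ℕ) [NeZero N] (hN : 2 ∣ N)

/-- parity of a residue modulo the even number `N` -/
def par : ZMod N →+* ZMod 2 := ZMod.castHom hN (ZMod 2)

/-- Rotation schemes: `P i` is the rotation (in terms of differences) at the vertices of class
`i`. -/
structure Scheme where
  P : ZMod 2 → Perm (ZMod N ⊕ Bool)
  fix0 : ∀ i, P i (Sum.inl 0) = Sum.inl 0
  reach : ∀ i (t : ZMod N ⊕ Bool), t ≠ Sum.inl 0 → ∃ m : ℕ, ((P i) ^ m) (Sum.inr false) = t
  rule : ∀ i d e, d ≠ 0 → P i (Sum.inl d) = Sum.inl e →
    P (i + par N hN e) (Sum.inl (-e)) = Sum.inl (d - e)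
  D : Bool → ZMod 2 → ZMod N
  parD : ∀ b i, par N hN (D b i) = 1
  hD1 : ∀ b i, P i (Sum.inl (D b i)) = Sum.inr b
  hD2 : ∀ b i, P (i + 1) (Sum.inr b) = Sum.inl (-(D b i))
  gen : ∀ b, ∃ t : ℕ, t • (D b 0 + D b 1) = 2

variable {N hN}

/-- the complete graph minus the edge `inr false, inr true` -/
def KG (N : ℕ) : SimpleGraph (ZMod N ⊕ Bool) where
  Adj u v := u ≠ v ∧ ¬ (u.isRight = true ∧ v.isRight = true)
  symm := ⟨fun _ _ h => ⟨h.1.symm, fun h' => h.2 ⟨h'.2, h'.1⟩⟩⟩
  loopless := ⟨fun _ h => h.1 rfl⟩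

/-- labels at the vertex `v` -/
def lbl (v : ZMod N) : (ZMod N ⊕ Bool) ≃ (ZMod N ⊕ Bool) :=
  Equiv.sumCongr (Equiv.addLeft v) (Equiv.refl Bool)

@[simp] theorem lbl_inl (v d : ZMod N) : lbl v (Sum.inl d) = Sum.inl (v + d) := rfl
@[simp] theorem lbl_inr (v : ZMod N) (b : Bool) : lbl v (Sum.inr b) = Sum.inr b := rfl
@[simp] theorem lbl_symm_inl (v x : ZMod N) : (lbl v).symm (Sum.inl x) = Sum.inl (x - v) := by
  rw [Equiv.symm_apply_eq]; simp
@[simp] theorem lbl_symm_inr (v : ZMod N) (b : Bool) : (lbl v).symm (Sum.inr b) = Sum.inr b := rfl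

theorem zmod2_cases (i : ZMod 2) : i = 0 ∨ i = 1 := by
  fin_cases i
  · left; rfl
  · right; rfl

theorem zmod2_add_self (i : ZMod 2) : i + i = 0 := CharTwo.add_self_eq_zero i

namespace Scheme

variable (S : Scheme N hN)

/-- rotation of the two extra vertices: `v ↦ v + D b (par v)` -/
def sh (b : Bool) : Perm (ZMod N) where
  toFun v := v + S.D b (par N hN v)
  invFun w := w - S.D b (par N hN w + 1)
  left_inv v := by
    have : par N hN (v + S.D b (par N hN v)) + 1 = par N hN v := by
      rw [map_add, S.parD, add_assoc, zmod2_add_self, add_zero]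
    simp only [this, add_sub_cancel_right]
  right_inv w := by
    have h1 : par N hN (w - S.D b (par N hN w + 1)) = par N hN w + 1 := by
      rw [map_sub, S.parD]
      rcases zmod2_cases (par N hN w) with h | h <;> rw [h] <;> decide
    simp only [h1, sub_add_cancel]

theorem sh_apply (b : Bool) (v : ZMod N) : S.sh b v = v + S.D b (par N hN v) := rfl

/-- the rotation system -/
def π : ZMod N ⊕ Bool → Perm (ZMod N ⊕ Bool)
  | Sum.inl v => ((lbl v).symm.trans (S.P (par N hN v))).trans (lbl v)
  | Sum.inr b => Equiv.sumCongr (S.sh b) (Equiv.refl Bool)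

theorem π_inl (v : ZMod N) (t : ZMod N ⊕ Bool) :
    S.π (Sum.inl v) t = lbl v (S.P (par N hN v) ((lbl v).symm t)) := rfl
theorem π_inr_inl (b : Bool) (v : ZMod N) :
    S.π (Sum.inr b) (Sum.inl v) = Sum.inl (v + S.D b (par N hN v)) := rfl
theorem π_inr_inr (b c : Bool) : S.π (Sum.inr b) (Sum.inr c) = Sum.inr c := rfl

theorem tri (u v : ZMod N ⊕ Bool) (h : (KG N).Adj u v) : S.π (S.π v u) v = u := by
  rcases v with y | b
  · rcases u with x | b
    · -- u = inl x, v = inl y
      have hd : x - y ≠ 0 := by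
        intro h0
        exact h.1 (by rw [sub_eq_zero.1 h0])
      rw [π_inl, lbl_symm_inl]
      rcases hP : S.P (par N hN y) (Sum.inl (x - y)) with e | b
      · rw [lbl_inl, π_inl, lbl_symm_inl, map_add,
          show y - (y + e) = -e by ring, S.rule _ _ _ hd hP, lbl_inl]
        congr 1; ring
      · rw [lbl_inr, π_inr_inl]
        have h1 := S.hD1 b (par N hN y)
        rw [← hP] at h1
        have h2 := Sum.inl_injective ((S.P (par N hN y)).injective h1)
        rw [h2]; congr 1; ring
    · -- u = inr b, v = inl y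
      have h1 := S.hD2 b (par N hN y + 1)
      rw [add_assoc, show (1 : ZMod 2) + 1 = 0 from by decide, add_zero] at h1
      rw [π_inl, lbl_symm_inr, h1, lbl_inl, π_inl, lbl_symm_inl]
      have h2 : par N hN (y + -S.D b (par N hN y + 1)) = par N hN y + 1 := by
        rw [map_add, map_neg, S.parD]
        rcases zmod2_cases (par N hN y) with h | h <;> rw [h] <;> decide
      rw [h2, show y - (y + -S.D b (par N hN y + 1)) = S.D b (par N hN y + 1) by ring,
        S.hD1, lbl_inr]
  · rcases u with x | c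
    · rw [π_inr_inl, π_inl, lbl_symm_inr]
      have h2 : par N hN (x + S.D b (par N hN x)) = par N hN x + 1 := by
        rw [map_add, S.parD]
      rw [h2, S.hD2, lbl_inl]
      congr 1; ring
    · exact absurd ⟨rfl, rfl⟩ h.2

theorem even_eq (x : ZMod N) (hx : par N hN x = 0) : ∃ j : ℕ, x = j • (2 : ZMod N) := by
  have h1 : ((x.val : ℕ) : ZMod 2) = 0 := by
    have : par N hN x = ((x.val : ℕ) : ZMod 2) := by
      conv_lhs => rw [← ZMod.natCast_zmod_val x]
      rw [map_natCast]
    rw [← this]; exact hx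
  rw [ZMod.natCast_eq_zero_iff] at h1
  obtain ⟨j, hj⟩ := h1
  refine ⟨j, ?_⟩
  rw [nsmul_eq_mul]
  conv_lhs => rw [← ZMod.natCast_zmod_val x, hj]
  push_cast; ring

theorem reach_inr (b : Bool) (x : ZMod N) :
    ∃ m : ℕ, ((S.π (Sum.inr b)) ^ m) (Sum.inl 0) = Sum.inl x := by
  set g := S.D b 0 + S.D b 1 with hg
  have hpg : par N hN g = 0 := by
    rw [hg, map_add, S.parD, S.parD]; decide
  have key : ∀ m : ℕ, ((S.π (Sum.inr b)) ^ (2 * m)) (Sum.inl 0) = Sum.inl (m • g) := by
    intro m
    induction m with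
    | zero => simp
    | succ m ih =>
      rw [show 2 * (m + 1) = 1 + (1 + 2 * m) by ring, pow_add, pow_add, Perm.mul_apply,
        Perm.mul_apply, ih, pow_one, π_inr_inl, π_inr_inl]
      have h1 : par N hN (m • g) = 0 := by rw [map_nsmul, hpg, smul_zero]
      have h2 : par N hN (m • g + S.D b 0) = 1 := by rw [map_add, h1, S.parD, zero_add]
      rw [h1, h2, succ_nsmul, hg]
      congr 1; ring
  obtain ⟨t, ht⟩ := S.gen b
  rcases zmod2_cases (par N hN x) with hx | hx
  · obtain ⟨j, hj⟩ := even_eq x hx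
    refine ⟨2 * (j * t), ?_⟩
    rw [key, mul_smul, ht, ← hj]
  · have hx' : par N hN (x - S.D b 0) = 0 := by rw [map_sub, hx, S.parD, sub_self]
    obtain ⟨j, hj⟩ := even_eq (x - S.D b 0) hx'
    refine ⟨1 + 2 * (j * t), ?_⟩
    rw [pow_add, Perm.mul_apply, key, mul_smul, ht, pow_one, π_inr_inl, ← hj, hx',
      sub_add_cancel]

theorem isRotation : IsRotation (KG N) S.π := by
  intro v
  rcases v with y | b
  · refine isCycleOn_of_reach _ _ (Sum.inr false) ?_ ?_
    · intro x
      have hfix : S.π (Sum.inl y) (Sum.inl y) = Sum.inl y := by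
        rw [π_inl, lbl_symm_inl, sub_self, S.fix0, lbl_inl, add_zero]
      have hnb : ∀ z : ZMod N ⊕ Bool, z ∈ (KG N).neighborSet (Sum.inl y) ↔ z ≠ Sum.inl y := by
        intro z
        rw [SimpleGraph.mem_neighborSet]
        constructor
        · intro h; exact h.1.symm
        · intro h; exact ⟨h.symm, by simp⟩
      rw [hnb, hnb]
      constructor
      · rintro h rfl; exact h hfix
      · intro h h'
        exact h ((S.π (Sum.inl y)).injective (h'.trans hfix.symm))
    · intro x hx
      have hx' : (lbl y).symm x ≠ Sum.inl 0 := by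
        intro h
        rw [Equiv.symm_apply_eq, lbl_inl, add_zero] at h
        rw [h] at hx
        exact (KG N).loopless.irrefl _ hx
      obtain ⟨m, hm⟩ := S.reach (par N hN y) _ hx'
      refine ⟨m, ?_⟩
      have key : ∀ (k : ℕ) (t : ZMod N ⊕ Bool), ((S.π (Sum.inl y)) ^ k) (lbl y t) =
          lbl y (((S.P (par N hN y)) ^ k) t) := by
        intro k
        induction k with
        | zero => intro t; rfl
        | succ k ih =>
          intro t
          rw [pow_succ, pow_succ, Perm.mul_apply, Perm.mul_apply, ← ih, π_inl,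
            Equiv.symm_apply_apply]
      have h1 := key m (Sum.inr false)
      rw [hm, lbl_inr, Equiv.apply_symm_apply] at h1
      exact h1
  · refine isCycleOn_of_reach _ _ (Sum.inl 0) ?_ ?_
    · have hnb : ∀ z : ZMod N ⊕ Bool, z ∈ (KG N).neighborSet (Sum.inr b) ↔ z.isLeft = true := by
        intro z
        rw [SimpleGraph.mem_neighborSet]
        rcases z with z | c
        · exact ⟨fun _ => rfl, fun _ => ⟨by simp, by simp⟩⟩
        · constructor
          · intro h; exact absurd ⟨rfl, rfl⟩ h.2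
          · intro h; simp at h
      intro x
      rw [hnb, hnb]
      rcases x with x | c
      · rw [π_inr_inl]; simp
      · rw [π_inr_inr]
    · intro x hx
      rcases x with x | c
      · exact S.reach_inr b x
      · exact absurd ⟨rfl, rfl⟩ hx.2

end Scheme

end Pool.Agent.H63.KG
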