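import Pool.Agent.H63.KG.Derived

/-!
# The family of index-two current graphs for `K_(24s+2)` minus an edge

`s = n + 1`.  The odd arcs of the current graph are `E L i k`, `F L i k` (two three-rail ladders
`L`, rails `i`) and the six arcs `S q`; the darts of the even arcs on the two sides are the ladder
arms `A L i k u` (`u = true`: towards the rail) and the fixed darts `D q` (`D 11` stands for the
label `0`); `V b` are the two vortices.
-/

set_option autoImplicit false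
set_option linter.unusedSectionVars false
set_option linter.style.haveILetI false
set_option linter.unusedSimpArgs false

namespace Pool.Agent.H63.KG

inductive Ix (n : ℕ) : Type
  | E (L : Bool) (i : Fin 3) (k : Fin (n + 1))
  | F (L : Bool) (i : Fin 3) (k : Fin n)
  | S (q : Fin 6)
  | A (L : Bool) (i : Fin 3) (k : Fin n) (u : Bool)
  | D (q : Fin 12)
  | V (b : Bool)

open Ix

abbrev IxSum (n : ℕ) : Type :=
  (Bool × Fin 3 × Fin (n + 1)) ⊕ (Bool × Fin 3 × Fin n) ⊕ Fin 6 ⊕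
    (Bool × Fin 3 × Fin n × Bool) ⊕ Fin 12 ⊕ Bool

def ixEquiv (n : ℕ) : Ix n ≃ IxSum n where
  toFun
    | E L i k => .inl (L, i, k)
    | F L i k => .inr (.inl (L, i, k))
    | S q => .inr (.inr (.inl q))
    | A L i k u => .inr (.inr (.inr (.inl (L, i, k, u))))
    | D q => .inr (.inr (.inr (.inr (.inl q))))
    | V b => .inr (.inr (.inr (.inr (.inr b))))
  invFun
    | .inl (L, i, k) => E L i k
    | .inr (.inl (L, i, k)) => F L i k
    | .inr (.inr (.inl q)) => S q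
    | .inr (.inr (.inr (.inl (L, i, k, u)))) => A L i k u
    | .inr (.inr (.inr (.inr (.inl q)))) => D q
    | .inr (.inr (.inr (.inr (.inr b)))) => V b
  left_inv t := by cases t <;> rfl
  right_inv t := by rcases t with t | t | t | t | t | t <;> rfl

instance (n : ℕ) : Fintype (Ix n) := Fintype.ofEquiv _ (ixEquiv n).symm

theorem card_ix (n : ℕ) : Fintype.card (Ix n) = 24 * (n + 1) + 2 := by
  rw [Fintype.card_congr (ixEquiv n)]
  simp only [Fintype.card_sum, Fintype.card_prod, Fintype.card_bool, Fintype.card_fin]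
  ring

/-! ### labels -/

def z0 (s : ℤ) : Bool → Fin 3 → ℤ
  | false, 0 => 0
  | false, 1 => 4 * s - 1
  | false, 2 => 4 * s + 1
  | true, 0 => 10 * s - 1
  | true, 1 => 2 * s
  | true, 2 => 4 * s

def al (s : ℤ) : Bool → Fin 3 → ℤ
  | false, 0 => -2 * s + 2
  | false, 1 => 4 * s - 2
  | false, 2 => -2 * s
  | true, 0 => -2 * s + 1
  | true, 1 => 6 * s - 2
  | true, 2 => -4 * s + 1

def pp : Fin 3 → ℤ
  | 0 => 2
  | 1 => -1
  | 2 => -1

def gg : Fin 3 → ℤ
  | 0 => -1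
  | 1 => -1
  | 2 => 2

def sg (s : ℤ) : Fin 6 → ℤ := ![s, 6 * s, 8 * s - 1, 9 * s - 1, 10 * s, 10 * s + 1]

def d0 (s : ℤ) : Fin 12 → ℤ :=
  ![7 * s + 2, -(7 * s + 2), 5 * s - 1, -(5 * s - 1), 6 * s - 1, -(6 * s - 1), 1, -1, 6 * s,
    3 * s - 1, 9 * s + 1, 0]

def d1 (s : ℤ) : Fin 12 → ℤ :=
  ![2 * s - 1, -(2 * s - 1), 2 * s + 1, -(2 * s + 1), 2 * s, -(2 * s), 4 * s, -(4 * s), 6 * s,
    5 * s, 7 * s, 0]

variable {n : ℕ}

def isOdd : Ix n → Bool
  | E _ _ _ => true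
  | F _ _ _ => true
  | S _ => true
  | _ => false

def isV : Ix n → Bool
  | V _ => true
  | _ => false

/-- half of (label - 1) of the odd arcs, seen from class 0 -/
def zZ (n : ℕ) : Ix n → ℤ
  | E L i k => z0 (n + 1) L i + gg i * (k : ℕ)
  | F L i k => z0 (n + 1) L i + al (n + 1) L i + (gg i + pp i) * (k : ℕ)
  | S q => sg (n + 1) q
  | _ => 0

def mZ0 (n : ℕ) : Ix n → ℤ
  | A L i k true => al (n + 1) L i + pp i * (k : ℕ)
  | A L i k false => -(al (n + 1) L i + pp i * (k : ℕ))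
  | D q => d0 (n + 1) q
  | _ => 0

def mZ1 (n : ℕ) : Ix n → ℤ
  | A L i k true => gg i - al (n + 1) L i - pp i * (k : ℕ)
  | A L i k false => -(gg i - al (n + 1) L i - pp i * (k : ℕ))
  | D q => d1 (n + 1) q
  | _ => 0

def labZ0 (n : ℕ) (t : Ix n) : ℤ := if isOdd t then 2 * zZ n t + 1 else 2 * mZ0 n t
def labZ1 (n : ℕ) (t : Ix n) : ℤ := if isOdd t then -(2 * zZ n t + 1) else 2 * mZ1 n t

/-! ### the rotations -/

def o0 (k : ℕ) : Fin 3 := if k % 2 = 0 then 1 else 2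
def o1 (k : ℕ) : Fin 3 := if k % 2 = 0 then 2 else 1

def e0 (n : ℕ) : Bool → Fin 3 → Ix n
  | false, 0 => S 0
  | false, 1 => S 4
  | false, 2 => V true
  | true, 0 => E true 1 0
  | true, 1 => D 3
  | true, 2 => S 2

def e1 (n : ℕ) : Bool → Fin 3 → Ix n
  | false, 0 => V true
  | false, 1 => S 4
  | false, 2 => S 3
  | true, 0 => D 5
  | true, 1 => D 10
  | true, 2 => V false

def f0 (n : ℕ) : Ix n → Ix n
  | E L i k => Fin.lastCases (motive := fun _ => Ix n) (e0 n L i) (fun j => A L i j false) k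
  | F L i k => E L i k.succ
  | S q => (![D 9, D 10, E true 0 0, D 1, D 5, V false] : Fin 6 → Ix n) q
  | A L i k true => F L i k
  | A L i k false => A L (i + o0 k) k true
  | D q => (![E false 2 0, D 2, S 1, D 7, E false 1 0, D 8, D 0, D 4, D 6, S 3, S 5, D 11] :
      Fin 12 → Ix n) q
  | V false => E true 2 0
  | V true => E false 0 0

def f1 (n : ℕ) : Ix n → Ix n
  | E L i k => Fin.cases (motive := fun _ => Ix n) (e1 n L i) (fun j => A L i j false) k
  | F L i k => E L i k.castSucc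
  | S q => (![D 1, E true 1 (Fin.last n), D 3, S 1, D 9, S 0] : Fin 6 → Ix n) q
  | A L i k true => F L i k
  | A L i k false => A L (i + o1 k) k true
  | D q => (![E false 0 (Fin.last n), D 7, E true 2 (Fin.last n), D 0, S 2, D 8, D 2, D 4, D 6,
      E true 0 (Fin.last n), E false 1 (Fin.last n), D 11] : Fin 12 → Ix n) q
  | V false => S 5
  | V true => E false 2 (Fin.last n)

/-- reversal of the even darts -/
def rv : Ix n → Ix n
  | A L i k u => A L i k (!u)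
  | D q => D ((![1, 0, 3, 2, 5, 4, 7, 6, 8, 10, 9, 11] : Fin 12 → Fin 12) q)
  | t => t

/-- congruence modulo `24 (n + 1)` -/
def CE (n : ℕ) (a b : ℤ) : Prop := ∃ c : ℤ, b = a + c * (24 * (n + 1))

theorem CE.cast {a b : ℤ} (h : CE n a b) : (a : ZMod (24 * (n + 1))) = (b : ZMod (24 * (n + 1))) := by
  obtain ⟨c, rfl⟩ := h
  have : ((24 * (n + 1) : ℕ) : ZMod (24 * (n + 1))) = 0 := ZMod.natCast_self _
  push_cast at this ⊢
  rw [this]; ring

/-- the label of the reversed dart -/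
theorem rv0 (t : Ix n) (h : isV t = false) : isOdd t = false →
    CE n (labZ0 n (rv t)) (-labZ0 n t) := by
  intro ho
  rcases t with ⟨L, i, k⟩ | ⟨L, i, k⟩ | q | ⟨L, i, k, u⟩ | q | b
  · simp [isOdd] at ho
  · simp [isOdd] at ho
  · simp [isOdd] at ho
  · cases u <;> simp only [rv, labZ0, isOdd, mZ0, Bool.not_false, Bool.not_true] <;>
      (first
        | (refine ⟨0, ?_⟩; push_cast; ring1)
        | (refine ⟨1, ?_⟩; push_cast; ring1)
        | (refine ⟨-1, ?_⟩; push_cast; ring1)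
        | (refine ⟨2, ?_⟩; push_cast; ring1)
        | (refine ⟨-2, ?_⟩; push_cast; ring1))
  · fin_cases q <;> simp [rv, labZ0, isOdd, mZ0, d0] <;>
      (first
        | (refine ⟨0, ?_⟩; push_cast; ring1)
        | (refine ⟨1, ?_⟩; push_cast; ring1)
        | (refine ⟨-1, ?_⟩; push_cast; ring1)
        | (refine ⟨2, ?_⟩; push_cast; ring1)
        | (refine ⟨-2, ?_⟩; push_cast; ring1))
  · simp [isV] at h

theorem rv1 (t : Ix n) (h : isV t = false) : isOdd t = false →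
    CE n (labZ1 n (rv t)) (-labZ1 n t) := by
  intro ho
  rcases t with ⟨L, i, k⟩ | ⟨L, i, k⟩ | q | ⟨L, i, k, u⟩ | q | b
  · simp [isOdd] at ho
  · simp [isOdd] at ho
  · simp [isOdd] at ho
  · cases u <;> simp only [rv, labZ1, isOdd, mZ1, Bool.not_false, Bool.not_true] <;>
      (first
        | (refine ⟨0, ?_⟩; push_cast; ring1)
        | (refine ⟨1, ?_⟩; push_cast; ring1)
        | (refine ⟨-1, ?_⟩; push_cast; ring1)
        | (refine ⟨2, ?_⟩; push_cast; ring1)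
        | (refine ⟨-2, ?_⟩; push_cast; ring1))
  · fin_cases q <;> simp [rv, labZ1, isOdd, mZ1, d1] <;>
      (first
        | (refine ⟨0, ?_⟩; push_cast; ring1)
        | (refine ⟨1, ?_⟩; push_cast; ring1)
        | (refine ⟨-1, ?_⟩; push_cast; ring1)
        | (refine ⟨2, ?_⟩; push_cast; ring1)
        | (refine ⟨-2, ?_⟩; push_cast; ring1))
  · simp [isV] at h

@[simp] theorem f0_E_cast (L : Bool) (i : Fin 3) (j : Fin n) :
    f0 n (E L i j.castSucc) = A L i j false := by simp [f0]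
@[simp] theorem f0_E_last (L : Bool) (i : Fin 3) :
    f0 n (E L i (Fin.last n)) = e0 n L i := by simp [f0]
@[simp] theorem f1_E_zero (L : Bool) (i : Fin 3) : f1 n (E L i 0) = e1 n L i := by simp [f1]
@[simp] theorem f1_E_succ (L : Bool) (i : Fin 3) (j : Fin n) :
    f1 n (E L i j.succ) = A L i j false := by simp [f1]

theorem kcl0 (t : Ix n) (ht : isV t = false) (ht' : t ≠ D 11) (h : isV (f0 n t) = false) :
    (isOdd (f0 n t) = true → isV (f1 n (f0 n t)) = false ∧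
      CE n (labZ1 n (f1 n (f0 n t))) (labZ0 n t - labZ0 n (f0 n t))) ∧
    (isOdd (f0 n t) = false → isV (f0 n (rv (f0 n t))) = false ∧
      CE n (labZ0 n (f0 n (rv (f0 n t)))) (labZ0 n t - labZ0 n (f0 n t))) := by
  rcases t with ⟨L, i, k⟩ | ⟨L, i, k⟩ | q | ⟨L, i, k, u⟩ | q | b
  · induction k using Fin.lastCases with
    | last =>
      cases L <;> fin_cases i <;>
        simp [e0, e1, f0, f1, rv, isOdd, isV, labZ0, labZ1, zZ, mZ0, mZ1, z0, al, pp, gg, sg, d0, d1] at h ⊢ <;>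
      (first
        | (refine ⟨0, ?_⟩; push_cast; ring1)
        | (refine ⟨1, ?_⟩; push_cast; ring1)
        | (refine ⟨-1, ?_⟩; push_cast; ring1)
        | (refine ⟨2, ?_⟩; push_cast; ring1)
        | (refine ⟨-2, ?_⟩; push_cast; ring1))
    | cast j =>
      cases L <;> fin_cases i <;>
        simp [f0, rv, isOdd, isV, labZ0, zZ, mZ0, z0, al, pp, gg] <;>
      (first
        | (refine ⟨0, ?_⟩; push_cast; ring1)
        | (refine ⟨1, ?_⟩; push_cast; ring1)
        | (refine ⟨-1, ?_⟩; push_cast; ring1)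
        | (refine ⟨2, ?_⟩; push_cast; ring1)
        | (refine ⟨-2, ?_⟩; push_cast; ring1))
  · cases L <;> fin_cases i <;>
        simp [f0, rv, isOdd, isV, labZ0, labZ1, zZ, mZ0, mZ1, z0, al, pp, gg] <;>
      (first
        | (refine ⟨0, ?_⟩; push_cast; ring1)
        | (refine ⟨1, ?_⟩; push_cast; ring1)
        | (refine ⟨-1, ?_⟩; push_cast; ring1)
        | (refine ⟨2, ?_⟩; push_cast; ring1)
        | (refine ⟨-2, ?_⟩; push_cast; ring1))
  · fin_cases q <;>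
        simp [e0, e1, f0, rv, isOdd, isV, labZ0, labZ1, zZ, mZ0, mZ1, z0, al, pp, gg, sg, d0, d1] at h ⊢ <;>
      (first
        | (refine ⟨0, ?_⟩; push_cast; ring1)
        | (refine ⟨1, ?_⟩; push_cast; ring1)
        | (refine ⟨-1, ?_⟩; push_cast; ring1)
        | (refine ⟨2, ?_⟩; push_cast; ring1)
        | (refine ⟨-2, ?_⟩; push_cast; ring1))
  · cases u
    · rcases Nat.mod_two_eq_zero_or_one k with hk | hk <;>
      cases L <;> fin_cases i <;>
        simp [f0, o0, hk, rv, isOdd, isV, labZ0, mZ0, al, pp] <;>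
      (first
        | (refine ⟨0, ?_⟩; push_cast; ring1)
        | (refine ⟨1, ?_⟩; push_cast; ring1)
        | (refine ⟨-1, ?_⟩; push_cast; ring1)
        | (refine ⟨2, ?_⟩; push_cast; ring1)
        | (refine ⟨-2, ?_⟩; push_cast; ring1))
    · cases L <;> fin_cases i <;>
        simp [f0, f1, rv, isOdd, isV, labZ0, labZ1, zZ, mZ0, mZ1, z0, al, pp, gg] <;>
      (first
        | (refine ⟨0, ?_⟩; push_cast; ring1)
        | (refine ⟨1, ?_⟩; push_cast; ring1)
        | (refine ⟨-1, ?_⟩; push_cast; ring1)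
        | (refine ⟨2, ?_⟩; push_cast; ring1)
        | (refine ⟨-2, ?_⟩; push_cast; ring1))
  · fin_cases q <;>
        simp [e0, e1, f0, f1, rv, isOdd, isV, labZ0, labZ1, zZ, mZ0, mZ1, z0, al, pp, gg, sg, d0, d1] at h ht' ⊢ <;>
      (first
        | (refine ⟨0, ?_⟩; push_cast; ring1)
        | (refine ⟨1, ?_⟩; push_cast; ring1)
        | (refine ⟨-1, ?_⟩; push_cast; ring1)
        | (refine ⟨2, ?_⟩; push_cast; ring1)
        | (refine ⟨-2, ?_⟩; push_cast; ring1))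
  · simp [isV] at ht

theorem kcl1 (t : Ix n) (ht : isV t = false) (ht' : t ≠ D 11) (h : isV (f1 n t) = false) :
    (isOdd (f1 n t) = true → isV (f0 n (f1 n t)) = false ∧
      CE n (labZ0 n (f0 n (f1 n t))) (labZ1 n t - labZ1 n (f1 n t))) ∧
    (isOdd (f1 n t) = false → isV (f1 n (rv (f1 n t))) = false ∧
      CE n (labZ1 n (f1 n (rv (f1 n t)))) (labZ1 n t - labZ1 n (f1 n t))) := by
  rcases t with ⟨L, i, k⟩ | ⟨L, i, k⟩ | q | ⟨L, i, k, u⟩ | q | b
  · induction k using Fin.cases with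
    | zero =>
      cases L <;> fin_cases i <;>
        simp [e0, e1, f0, f1, rv, isOdd, isV, labZ0, labZ1, zZ, mZ0, mZ1, z0, al, pp, gg, sg, d0, d1] at h ⊢ <;>
      (first
        | (refine ⟨0, ?_⟩; push_cast; ring1)
        | (refine ⟨1, ?_⟩; push_cast; ring1)
        | (refine ⟨-1, ?_⟩; push_cast; ring1)
        | (refine ⟨2, ?_⟩; push_cast; ring1)
        | (refine ⟨-2, ?_⟩; push_cast; ring1))
    | succ j =>
      cases L <;> fin_cases i <;>
        simp [f1, rv, isOdd, isV, labZ1, zZ, mZ1, z0, al, pp, gg] <;>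
      (first
        | (refine ⟨0, ?_⟩; push_cast; ring1)
        | (refine ⟨1, ?_⟩; push_cast; ring1)
        | (refine ⟨-1, ?_⟩; push_cast; ring1)
        | (refine ⟨2, ?_⟩; push_cast; ring1)
        | (refine ⟨-2, ?_⟩; push_cast; ring1))
  · cases L <;> fin_cases i <;>
        simp [f0, f1, rv, isOdd, isV, labZ0, labZ1, zZ, mZ0, mZ1, z0, al, pp, gg] <;>
      (first
        | (refine ⟨0, ?_⟩; push_cast; ring1)
        | (refine ⟨1, ?_⟩; push_cast; ring1)
        | (refine ⟨-1, ?_⟩; push_cast; ring1)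
        | (refine ⟨2, ?_⟩; push_cast; ring1)
        | (refine ⟨-2, ?_⟩; push_cast; ring1))
  · fin_cases q <;>
        simp [e0, e1, f0, f1, rv, isOdd, isV, labZ0, labZ1, zZ, mZ0, mZ1, z0, al, pp, gg, sg, d0, d1] at h ⊢ <;>
      (first
        | (refine ⟨0, ?_⟩; push_cast; ring1)
        | (refine ⟨1, ?_⟩; push_cast; ring1)
        | (refine ⟨-1, ?_⟩; push_cast; ring1)
        | (refine ⟨2, ?_⟩; push_cast; ring1)
        | (refine ⟨-2, ?_⟩; push_cast; ring1))
  · cases u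
    · rcases Nat.mod_two_eq_zero_or_one k with hk | hk <;>
      cases L <;> fin_cases i <;>
        simp [f1, o1, hk, rv, isOdd, isV, labZ1, mZ1, al, pp, gg] <;>
      (first
        | (refine ⟨0, ?_⟩; push_cast; ring1)
        | (refine ⟨1, ?_⟩; push_cast; ring1)
        | (refine ⟨-1, ?_⟩; push_cast; ring1)
        | (refine ⟨2, ?_⟩; push_cast; ring1)
        | (refine ⟨-2, ?_⟩; push_cast; ring1))
    · cases L <;> fin_cases i <;>
        simp [f0, f1, rv, isOdd, isV, labZ0, labZ1, zZ, mZ0, mZ1, z0, al, pp, gg] <;>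
      (first
        | (refine ⟨0, ?_⟩; push_cast; ring1)
        | (refine ⟨1, ?_⟩; push_cast; ring1)
        | (refine ⟨-1, ?_⟩; push_cast; ring1)
        | (refine ⟨2, ?_⟩; push_cast; ring1)
        | (refine ⟨-2, ?_⟩; push_cast; ring1))
  · fin_cases q <;>
        simp [e0, e1, f0, f1, rv, isOdd, isV, labZ0, labZ1, zZ, mZ0, mZ1, z0, al, pp, gg, sg, d0, d1] at h ht' ⊢ <;>
      (first
        | (refine ⟨0, ?_⟩; push_cast; ring1)
        | (refine ⟨1, ?_⟩; push_cast; ring1)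
        | (refine ⟨-1, ?_⟩; push_cast; ring1)
        | (refine ⟨2, ?_⟩; push_cast; ring1)
        | (refine ⟨-2, ?_⟩; push_cast; ring1))
  · simp [isV] at ht

/-! ### the labels are all the residues -/

/-- congruence modulo `12 (n + 1)` -/
def CH (n : ℕ) (a b : ℤ) : Prop := ∃ c : ℤ, b = a + c * (12 * (n + 1))

theorem zsurj (z : ℕ) (hz : z < 12 * (n + 1)) :
    ∃ t : Ix n, isOdd t = true ∧ CH n (zZ n t) z := by
  rcases Nat.lt_or_ge z (6 * (n + 1)) with h6 | h6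
  · by_cases h : z = 0
    · refine ⟨E false 0 0, rfl, 0, ?_⟩
      simp [zZ, z0, gg, h]
    by_cases h : z ≤ n
    · refine ⟨F true 2 ⟨z - 1, by omega⟩, rfl, 0, ?_⟩
      simp only [zZ, z0, al, gg, pp]; omega
    by_cases h : z = n + 1
    · refine ⟨S 0, rfl, 0, ?_⟩
      simp [zZ, sg, h]
    by_cases h : z ≤ 2 * (n + 1)
    · refine ⟨E true 1 ⟨2 * (n + 1) - z, by omega⟩, rfl, 0, ?_⟩
      simp only [zZ, z0, al, gg, pp]; omega
    by_cases h : z < 3 * (n + 1)
    · refine ⟨F false 2 ⟨z - (2 * (n + 1) + 1), by omega⟩, rfl, 0, ?_⟩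
      simp only [zZ, z0, al, gg, pp]; omega
    by_cases h : z < 4 * (n + 1)
    · refine ⟨E false 1 ⟨4 * (n + 1) - 1 - z, by omega⟩, rfl, 0, ?_⟩
      simp only [zZ, z0, al, gg, pp]; omega
    by_cases h : z % 2 = 0
    · refine ⟨E true 2 ⟨(z - 4 * (n + 1)) / 2, by omega⟩, rfl, 0, ?_⟩
      simp only [zZ, z0, al, gg, pp]; omega
    · refine ⟨E false 2 ⟨(z - (4 * (n + 1) + 1)) / 2, by omega⟩, rfl, 0, ?_⟩
      simp only [zZ, z0, al, gg, pp]; omega
  · by_cases h : z = 6 * (n + 1)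
    · refine ⟨S 1, rfl, 0, ?_⟩
      simp [zZ, sg, h]
    by_cases h : z < 8 * (n + 1) - 1
    · by_cases h' : z % 2 = 0
      · refine ⟨F true 1 ⟨(8 * (n + 1) - 2 - z) / 2, by omega⟩, rfl, 0, ?_⟩
        simp only [zZ, z0, al, gg, pp]; omega
      · refine ⟨F false 1 ⟨(8 * (n + 1) - 3 - z) / 2, by omega⟩, rfl, 0, ?_⟩
        simp only [zZ, z0, al, gg, pp]; omega
    by_cases h : z = 8 * (n + 1) - 1
    · refine ⟨S 2, rfl, 0, ?_⟩
      simp [zZ, sg, h]
    by_cases h : z < 9 * (n + 1) - 1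
    · refine ⟨F true 0 ⟨z - 8 * (n + 1), by omega⟩, rfl, 0, ?_⟩
      simp only [zZ, z0, al, gg, pp]; omega
    by_cases h : z = 9 * (n + 1) - 1
    · refine ⟨S 3, rfl, 0, ?_⟩
      simp [zZ, sg, h]
    by_cases h : z < 10 * (n + 1)
    · refine ⟨E true 0 ⟨10 * (n + 1) - 1 - z, by omega⟩, rfl, 0, ?_⟩
      simp only [zZ, z0, al, gg, pp]; omega
    by_cases h : z = 10 * (n + 1)
    · refine ⟨S 4, rfl, 0, ?_⟩
      simp [zZ, sg, h]
    by_cases h : z = 10 * (n + 1) + 1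
    · refine ⟨S 5, rfl, 0, ?_⟩
      simp [zZ, sg, h]
    by_cases h : z ≤ 11 * (n + 1)
    · refine ⟨F false 0 ⟨z - (10 * (n + 1) + 2), by omega⟩, rfl, 1, ?_⟩
      simp only [zZ, z0, al, gg, pp]; omega
    · refine ⟨E false 0 ⟨12 * (n + 1) - z, by omega⟩, rfl, 1, ?_⟩
      simp only [zZ, z0, al, gg, pp]; omega

theorem mhalf0 (m : ℕ) (h1 : 1 ≤ m) (hm : m ≤ 6 * (n + 1)) :
    ∃ t : Ix n, isOdd t = false ∧ isV t = false ∧ CH n (mZ0 n t) m := by
  by_cases h : m = 1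
  · exact ⟨D 6, rfl, rfl, 0, by simp [mZ0, d0, h]⟩
  by_cases h : m < 2 * (n + 1)
  · by_cases h' : m % 2 = 0
    · refine ⟨A false 0 ⟨(2 * (n + 1) - 2 - m) / 2, by omega⟩ false, rfl, rfl, 0, ?_⟩
      simp only [mZ0, al, pp]; omega
    · refine ⟨A true 0 ⟨(2 * (n + 1) - 1 - m) / 2, by omega⟩ false, rfl, rfl, 0, ?_⟩
      simp only [mZ0, al, pp]; omega
  by_cases h : m < 3 * (n + 1) - 1
  · refine ⟨A false 2 ⟨m - 2 * (n + 1), by omega⟩ false, rfl, rfl, 0, ?_⟩
    simp only [mZ0, al, pp]; omega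
  by_cases h : m = 3 * (n + 1) - 1
  · refine ⟨D 9, rfl, rfl, 0, ?_⟩
    simp [mZ0, d0]; omega
  by_cases h : m < 4 * (n + 1) - 1
  · refine ⟨A false 1 ⟨4 * (n + 1) - 2 - m, by omega⟩ true, rfl, rfl, 0, ?_⟩
    simp only [mZ0, al, pp]; omega
  by_cases h : m < 5 * (n + 1) - 2
  · refine ⟨A true 2 ⟨m - (4 * (n + 1) - 1), by omega⟩ false, rfl, rfl, 0, ?_⟩
    simp only [mZ0, al, pp]; omega
  by_cases h : m = 5 * (n + 1) - 2
  · refine ⟨D 1, rfl, rfl, 1, ?_⟩
    simp [mZ0, d0]; omega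
  by_cases h : m = 5 * (n + 1) - 1
  · refine ⟨D 2, rfl, rfl, 0, ?_⟩
    simp [mZ0, d0]; omega
  by_cases h : m < 6 * (n + 1) - 1
  · refine ⟨A true 1 ⟨6 * (n + 1) - 2 - m, by omega⟩ true, rfl, rfl, 0, ?_⟩
    simp only [mZ0, al, pp]; omega
  by_cases h : m = 6 * (n + 1) - 1
  · refine ⟨D 4, rfl, rfl, 0, ?_⟩
    simp [mZ0, d0]; omega
  · refine ⟨D 8, rfl, rfl, 0, ?_⟩
    simp [mZ0, d0]; omega

theorem mhalf1 (m : ℕ) (h1 : 1 ≤ m) (hm : m ≤ 6 * (n + 1)) :
    ∃ t : Ix n, isOdd t = false ∧ isV t = false ∧ CH n (mZ1 n t) m := by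
  by_cases h : m < 2 * (n + 1) - 1
  · by_cases h' : m % 2 = 0
    · refine ⟨A true 0 ⟨(2 * (n + 1) - 2 - m) / 2, by omega⟩ true, rfl, rfl, 0, ?_⟩
      simp only [mZ1, al, pp, gg]; omega
    · refine ⟨A false 0 ⟨(2 * (n + 1) - 3 - m) / 2, by omega⟩ true, rfl, rfl, 0, ?_⟩
      simp only [mZ1, al, pp, gg]; omega
  by_cases h : m = 2 * (n + 1) - 1
  · refine ⟨D 0, rfl, rfl, 0, ?_⟩
    simp [mZ1, d1]; omega
  by_cases h : m = 2 * (n + 1)
  · refine ⟨D 4, rfl, rfl, 0, ?_⟩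
    simp [mZ1, d1]; omega
  by_cases h : m = 2 * (n + 1) + 1
  · refine ⟨D 2, rfl, rfl, 0, ?_⟩
    simp [mZ1, d1]; omega
  by_cases h : m ≤ 3 * (n + 1)
  · refine ⟨A false 2 ⟨m - (2 * (n + 1) + 2), by omega⟩ true, rfl, rfl, 0, ?_⟩
    simp only [mZ1, al, pp, gg]; omega
  by_cases h : m < 4 * (n + 1)
  · refine ⟨A false 1 ⟨4 * (n + 1) - 1 - m, by omega⟩ false, rfl, rfl, 0, ?_⟩
    simp only [mZ1, al, pp, gg]; omega
  by_cases h : m = 4 * (n + 1)
  · refine ⟨D 6, rfl, rfl, 0, ?_⟩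
    simp [mZ1, d1]; omega
  by_cases h : m < 5 * (n + 1)
  · refine ⟨A true 2 ⟨m - (4 * (n + 1) + 1), by omega⟩ true, rfl, rfl, 0, ?_⟩
    simp only [mZ1, al, pp, gg]; omega
  by_cases h : m = 5 * (n + 1)
  · refine ⟨D 9, rfl, rfl, 0, ?_⟩
    simp [mZ1, d1]; omega
  by_cases h : m < 6 * (n + 1)
  · refine ⟨A true 1 ⟨6 * (n + 1) - 1 - m, by omega⟩ false, rfl, rfl, 0, ?_⟩
    simp only [mZ1, al, pp, gg]; omega
  · refine ⟨D 8, rfl, rfl, 0, ?_⟩
    simp [mZ1, d1]; omega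

end Pool.Agent.H63.KG
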