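import Pool.Agent.H63.KG.Family

/-!
# The labels form a bijection with the residues and the two extra labels
-/

set_option autoImplicit false
set_option linter.unusedSectionVars false
set_option linter.style.haveILetI false
set_option linter.unusedSimpArgs false

namespace Pool.Agent.H63.KG

open Ix

variable {n : ℕ}

theorem msurj0 (m : ℕ) (hm : m < 12 * (n + 1)) :
    ∃ t : Ix n, isOdd t = false ∧ isV t = false ∧ CH n (mZ0 n t) m := by
  rcases Nat.eq_zero_or_pos m with h0 | h0
  · exact ⟨D 11, rfl, rfl, 0, by simp [mZ0, d0, h0]⟩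
  rcases Nat.le_total m (6 * (n + 1)) with h | h
  · exact mhalf0 m h0 h
  · obtain ⟨t, ht1, ht2, c, hc⟩ := mhalf0 (n := n) (12 * (n + 1) - m) (by omega) (by omega)
    have hv : isOdd (rv t) = false ∧ isV (rv t) = false := by
      rcases t with _ | _ | _ | _ | _ | _ <;> simp_all [rv, isOdd, isV]
    obtain ⟨c', hc'⟩ := rv0 t ht2 ht1
    refine ⟨rv t, hv.1, hv.2, 1 - c + c', ?_⟩
    simp only [labZ0, ht1, hv.1] at hc'
    push_cast [Nat.cast_sub (show m ≤ 12 * (n + 1) by omega)] at hc
    simp only [Bool.false_eq_true, if_false] at hc'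
    linarith

theorem msurj1 (m : ℕ) (hm : m < 12 * (n + 1)) :
    ∃ t : Ix n, isOdd t = false ∧ isV t = false ∧ CH n (mZ1 n t) m := by
  rcases Nat.eq_zero_or_pos m with h0 | h0
  · exact ⟨D 11, rfl, rfl, 0, by simp [mZ1, d1, h0]⟩
  rcases Nat.le_total m (6 * (n + 1)) with h | h
  · exact mhalf1 m h0 h
  · obtain ⟨t, ht1, ht2, c, hc⟩ := mhalf1 (n := n) (12 * (n + 1) - m) (by omega) (by omega)
    have hv : isOdd (rv t) = false ∧ isV (rv t) = false := by
      rcases t with _ | _ | _ | _ | _ | _ <;> simp_all [rv, isOdd, isV]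
    obtain ⟨c', hc'⟩ := rv1 t ht2 ht1
    refine ⟨rv t, hv.1, hv.2, 1 - c + c', ?_⟩
    simp only [labZ1, ht1, hv.1] at hc'
    push_cast [Nat.cast_sub (show m ≤ 12 * (n + 1) by omega)] at hc
    simp only [Bool.false_eq_true, if_false] at hc'
    linarith

/-- the labels at a vertex of class 0 -/
def lab0 (n : ℕ) (t : Ix n) : ZMod (24 * (n + 1)) ⊕ Bool :=
  match t with
  | V b => Sum.inr b
  | t => Sum.inl (labZ0 n t : ZMod (24 * (n + 1)))

/-- the labels at a vertex of class 1 -/
def lab1 (n : ℕ) (t : Ix n) : ZMod (24 * (n + 1)) ⊕ Bool :=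
  match t with
  | V b => Sum.inr b
  | t => Sum.inl (labZ1 n t : ZMod (24 * (n + 1)))

theorem lab0_of (t : Ix n) (h : isV t = false) :
    lab0 n t = Sum.inl (labZ0 n t : ZMod (24 * (n + 1))) := by
  rcases t with _ | _ | _ | _ | _ | _ <;> first | rfl | simp [isV] at h

theorem lab1_of (t : Ix n) (h : isV t = false) :
    lab1 n t = Sum.inl (labZ1 n t : ZMod (24 * (n + 1))) := by
  rcases t with _ | _ | _ | _ | _ | _ <;> first | rfl | simp [isV] at h

theorem isV_of_isOdd {t : Ix n} (h : isOdd t = true) : isV t = false := by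
  rcases t with _ | _ | _ | _ | _ | _ <;> simp_all [isV, isOdd]

theorem lab0_surj : Function.Surjective (lab0 n) := by
  intro y
  rcases y with d | b
  · have hd : ((d.val : ℤ) : ZMod (24 * (n + 1))) = d := by simp
    have hlt : d.val < 24 * (n + 1) := ZMod.val_lt d
    rcases Nat.mod_two_eq_zero_or_one d.val with h | h
    · obtain ⟨t, h1, h2, c, hc⟩ := msurj0 (n := n) (d.val / 2) (by omega)
      refine ⟨t, ?_⟩
      rw [lab0_of t h2, ← hd]
      congr 1
      apply CE.cast
      refine ⟨c, ?_⟩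
      have : (d.val : ℤ) = 2 * ((d.val / 2 : ℕ) : ℤ) := by omega
      rw [this, hc]
      simp only [labZ0, h1]
      simp only [Bool.false_eq_true, if_false]
      ring
    · obtain ⟨t, h1, c, hc⟩ := zsurj (n := n) (d.val / 2) (by omega)
      refine ⟨t, ?_⟩
      rw [lab0_of t (isV_of_isOdd h1), ← hd]
      congr 1
      apply CE.cast
      refine ⟨c, ?_⟩
      have : (d.val : ℤ) = 2 * ((d.val / 2 : ℕ) : ℤ) + 1 := by omega
      rw [this, hc]
      simp only [labZ0, h1, if_true]
      ring
  · exact ⟨V b, rfl⟩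

theorem lab1_surj : Function.Surjective (lab1 n) := by
  intro y
  rcases y with d | b
  · rcases Nat.mod_two_eq_zero_or_one d.val with h | h
    · have hd : ((d.val : ℤ) : ZMod (24 * (n + 1))) = d := by simp
      have hlt : d.val < 24 * (n + 1) := ZMod.val_lt d
      obtain ⟨t, h1, h2, c, hc⟩ := msurj1 (n := n) (d.val / 2) (by omega)
      refine ⟨t, ?_⟩
      rw [lab1_of t h2, ← hd]
      congr 1
      apply CE.cast
      refine ⟨c, ?_⟩
      have : (d.val : ℤ) = 2 * ((d.val / 2 : ℕ) : ℤ) := by omega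
      rw [this, hc]
      simp only [labZ1, h1]
      simp only [Bool.false_eq_true, if_false]
      ring
    · have hd : (((d.val : ℕ) : ℤ) : ZMod (24 * (n + 1))) = d := by simp
      have hlt : d.val < 24 * (n + 1) := ZMod.val_lt d
      obtain ⟨t, h1, c, hc⟩ := zsurj (n := n) ((24 * (n + 1) - d.val) / 2) (by omega)
      refine ⟨t, ?_⟩
      rw [lab1_of t (isV_of_isOdd h1), ← hd]
      congr 1
      apply CE.cast
      refine ⟨1 - c, ?_⟩
      have : (d.val : ℤ) = 24 * (n + 1) - (2 * (((24 * (n + 1) - d.val) / 2 : ℕ) : ℤ) + 1) := by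
        omega
      rw [this, hc]
      simp only [labZ1, h1, if_true]
      ring
  · exact ⟨V b, rfl⟩

theorem card_eq : Fintype.card (Ix n) = Fintype.card (ZMod (24 * (n + 1)) ⊕ Bool) := by
  rw [card_ix, Fintype.card_sum, ZMod.card, Fintype.card_bool]

theorem lab0_bij : Function.Bijective (lab0 n) :=
  (Fintype.bijective_iff_surjective_and_card _).2 ⟨lab0_surj, card_eq⟩

theorem lab1_bij : Function.Bijective (lab1 n) :=
  (Fintype.bijective_iff_surjective_and_card _).2 ⟨lab1_surj, card_eq⟩

end Pool.Agent.H63.KG
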