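import Pool.Agent.H63.KG.Family2

/-!
# Each of the two rotations is a single cycle
-/

set_option autoImplicit false
set_option linter.unusedSectionVars false
set_option linter.style.haveILetI false
set_option linter.unusedSimpArgs false

namespace Pool.Agent.H63.KG

open Ix

variable {n : ℕ}

/-- forward reachability -/
def Rc (f : Ix n → Ix n) : Ix n → Ix n → Prop := Relation.ReflTransGen (fun a b => f a = b)

theorem Rc.step {f : Ix n → Ix n} {a b : Ix n} (h : Rc f a b) : Rc f a (f b) :=
  Relation.ReflTransGen.tail h rfl

/-! ### side 0 -/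

def s0 (k : ℕ) : Fin 3 := if k % 2 = 0 then 0 else 1

theorem s0_succ (k : ℕ) : s0 (k + 1) = s0 k + o0 k := by
  rcases Nat.mod_two_eq_zero_or_one k with h | h
  · have h' : (k + 1) % 2 = 1 := by omega
    simp [s0, o0, h, h']
  · have h' : (k + 1) % 2 = 0 := by omega
    simp [s0, o0, h, h']

theorem step0 {a : Ix n} {L : Bool} {i : Fin 3} {k : Fin n} (h : Rc (f0 n) a (E L i k.castSucc)) :
    Rc (f0 n) a (A L i k false) ∧ Rc (f0 n) a (A L (i + o0 k) k true) ∧
      Rc (f0 n) a (F L (i + o0 k) k) ∧ Rc (f0 n) a (E L (i + o0 k) k.succ) := by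
  have h1 : Rc (f0 n) a (A L i k false) := by
    have := h.step; rwa [f0_E_cast] at this
  have h2 : Rc (f0 n) a (A L (i + o0 k) k true) := h1.step
  have h3 : Rc (f0 n) a (F L (i + o0 k) k) := h2.step
  exact ⟨h1, h2, h3, h3.step⟩

theorem lad0 {a : Ix n} {L : Bool} {i : Fin 3} (h : Rc (f0 n) a (E L i 0)) :
    ∀ (k : ℕ) (hk : k < n + 1), Rc (f0 n) a (E L (i + s0 k) ⟨k, hk⟩) := by
  intro k
  induction k with
  | zero => intro hk; simpa [s0] using h
  | succ k ih =>
    intro hk
    have h1 := (step0 (k := ⟨k, by omega⟩) (ih (by omega))).2.2.2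
    rw [s0_succ, ← add_assoc]
    exact h1

theorem all0 {a : Ix n} (hE : ∀ L i, Rc (f0 n) a (E L i 0)) :
    (∀ L i k, Rc (f0 n) a (E L i k)) ∧ (∀ L i k, Rc (f0 n) a (F L i k)) ∧
      (∀ L i k u, Rc (f0 n) a (A L i k u)) := by
  have h1 : ∀ L i k, Rc (f0 n) a (E L i k) := by
    intro L i k
    have := lad0 (hE L (i - s0 k)) k k.2
    rwa [sub_add_cancel] at this
  refine ⟨h1, ?_, ?_⟩
  · intro L i k
    have := (step0 (h1 L (i - o0 k) k.castSucc)).2.2.1
    rwa [sub_add_cancel] at this
  · intro L i k u
    cases u
    · exact (step0 (h1 L i k.castSucc)).1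
    · have := (step0 (h1 L (i - o0 k) k.castSucc)).2.1
      rwa [sub_add_cancel] at this

theorem ends0 : (∀ L i, Rc (f0 n) (V false) (E L i 0)) ∧ (∀ q, Rc (f0 n) (V false) (S q)) ∧
    (∀ q, q ≠ 11 → Rc (f0 n) (V false) (D q)) ∧ Rc (f0 n) (V false) (V true) := by
  set R : Ix n → Prop := Rc (f0 n) (V false) with hR
  have hX : R (V false) := Relation.ReflTransGen.refl
  have hs : ∀ t, R t → R (f0 n t) := fun t h => h.step
  have hl : ∀ L i, R (E L i 0) → R (E L (i + s0 n) (Fin.last n)) := fun L i h =>
    lad0 h n (Nat.lt_succ_self n)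
  clear_value R
  rcases Nat.mod_two_eq_zero_or_one n with hn | hn
  · have hσ : s0 n = 0 := by simp [s0, hn]
    have hE12s : R (E true 2 0 : Ix n) := by
      have h := hs _ hX
      simpa [f0, e0] using h
    have hE12l : R (E true 2 (Fin.last n) : Ix n) := by
      have h := hl _ _ hE12s
      simpa [hσ] using h
    have hS2 : R (S 2 : Ix n) := by
      have h := hs _ hE12l
      simpa [f0, e0] using h
    have hE10s : R (E true 0 0 : Ix n) := by
      have h := hs _ hS2
      simpa [f0, e0] using h
    have hE10l : R (E true 0 (Fin.last n) : Ix n) := by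
      have h := hl _ _ hE10s
      simpa [hσ] using h
    have hE11s : R (E true 1 0 : Ix n) := by
      have h := hs _ hE10l
      simpa [f0, e0] using h
    have hE11l : R (E true 1 (Fin.last n) : Ix n) := by
      have h := hl _ _ hE11s
      simpa [hσ] using h
    have hD3 : R (D 3 : Ix n) := by
      have h := hs _ hE11l
      simpa [f0, e0] using h
    have hD7 : R (D 7 : Ix n) := by
      have h := hs _ hD3
      simpa [f0, e0] using h
    have hD4 : R (D 4 : Ix n) := by
      have h := hs _ hD7
      simpa [f0, e0] using h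
    have hE01s : R (E false 1 0 : Ix n) := by
      have h := hs _ hD4
      simpa [f0, e0] using h
    have hE01l : R (E false 1 (Fin.last n) : Ix n) := by
      have h := hl _ _ hE01s
      simpa [hσ] using h
    have hS4 : R (S 4 : Ix n) := by
      have h := hs _ hE01l
      simpa [f0, e0] using h
    have hD5 : R (D 5 : Ix n) := by
      have h := hs _ hS4
      simpa [f0, e0] using h
    have hD8 : R (D 8 : Ix n) := by
      have h := hs _ hD5
      simpa [f0, e0] using h
    have hD6 : R (D 6 : Ix n) := by
      have h := hs _ hD8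
      simpa [f0, e0] using h
    have hD0 : R (D 0 : Ix n) := by
      have h := hs _ hD6
      simpa [f0, e0] using h
    have hE02s : R (E false 2 0 : Ix n) := by
      have h := hs _ hD0
      simpa [f0, e0] using h
    have hE02l : R (E false 2 (Fin.last n) : Ix n) := by
      have h := hl _ _ hE02s
      simpa [hσ] using h
    have hY : R (V true : Ix n) := by
      have h := hs _ hE02l
      simpa [f0, e0] using h
    have hE00s : R (E false 0 0 : Ix n) := by
      have h := hs _ hY
      simpa [f0, e0] using h
    have hE00l : R (E false 0 (Fin.last n) : Ix n) := by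
      have h := hl _ _ hE00s
      simpa [hσ] using h
    have hS0 : R (S 0 : Ix n) := by
      have h := hs _ hE00l
      simpa [f0, e0] using h
    have hD9 : R (D 9 : Ix n) := by
      have h := hs _ hS0
      simpa [f0, e0] using h
    have hS3 : R (S 3 : Ix n) := by
      have h := hs _ hD9
      simpa [f0, e0] using h
    have hD1 : R (D 1 : Ix n) := by
      have h := hs _ hS3
      simpa [f0, e0] using h
    have hD2 : R (D 2 : Ix n) := by
      have h := hs _ hD1
      simpa [f0, e0] using h
    have hS1 : R (S 1 : Ix n) := by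
      have h := hs _ hD2
      simpa [f0, e0] using h
    have hD10 : R (D 10 : Ix n) := by
      have h := hs _ hS1
      simpa [f0, e0] using h
    have hS5 : R (S 5 : Ix n) := by
      have h := hs _ hD10
      simpa [f0, e0] using h
    refine ⟨?_, ?_, ?_, hY⟩
    · rintro (_ | _) i <;> fin_cases i <;> assumption
    · intro q; fin_cases q <;> assumption
    · intro q hq; fin_cases q <;> first | assumption | exact absurd rfl hq
  · have hσ : s0 n = 1 := by simp [s0, hn]
    have hE12s : R (E true 2 0 : Ix n) := by
      have h := hs _ hX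
      simpa [f0, e0] using h
    have hE10l : R (E true 0 (Fin.last n) : Ix n) := by
      have h := hl _ _ hE12s
      simpa [hσ] using h
    have hE11s : R (E true 1 0 : Ix n) := by
      have h := hs _ hE10l
      simpa [f0, e0] using h
    have hE12l : R (E true 2 (Fin.last n) : Ix n) := by
      have h := hl _ _ hE11s
      simpa [hσ] using h
    have hS2 : R (S 2 : Ix n) := by
      have h := hs _ hE12l
      simpa [f0, e0] using h
    have hE10s : R (E true 0 0 : Ix n) := by
      have h := hs _ hS2
      simpa [f0, e0] using h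
    have hE11l : R (E true 1 (Fin.last n) : Ix n) := by
      have h := hl _ _ hE10s
      simpa [hσ] using h
    have hD3 : R (D 3 : Ix n) := by
      have h := hs _ hE11l
      simpa [f0, e0] using h
    have hD7 : R (D 7 : Ix n) := by
      have h := hs _ hD3
      simpa [f0, e0] using h
    have hD4 : R (D 4 : Ix n) := by
      have h := hs _ hD7
      simpa [f0, e0] using h
    have hE01s : R (E false 1 0 : Ix n) := by
      have h := hs _ hD4
      simpa [f0, e0] using h
    have hE02l : R (E false 2 (Fin.last n) : Ix n) := by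
      have h := hl _ _ hE01s
      simpa [hσ] using h
    have hY : R (V true : Ix n) := by
      have h := hs _ hE02l
      simpa [f0, e0] using h
    have hE00s : R (E false 0 0 : Ix n) := by
      have h := hs _ hY
      simpa [f0, e0] using h
    have hE01l : R (E false 1 (Fin.last n) : Ix n) := by
      have h := hl _ _ hE00s
      simpa [hσ] using h
    have hS4 : R (S 4 : Ix n) := by
      have h := hs _ hE01l
      simpa [f0, e0] using h
    have hD5 : R (D 5 : Ix n) := by
      have h := hs _ hS4
      simpa [f0, e0] using h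
    have hD8 : R (D 8 : Ix n) := by
      have h := hs _ hD5
      simpa [f0, e0] using h
    have hD6 : R (D 6 : Ix n) := by
      have h := hs _ hD8
      simpa [f0, e0] using h
    have hD0 : R (D 0 : Ix n) := by
      have h := hs _ hD6
      simpa [f0, e0] using h
    have hE02s : R (E false 2 0 : Ix n) := by
      have h := hs _ hD0
      simpa [f0, e0] using h
    have hE00l : R (E false 0 (Fin.last n) : Ix n) := by
      have h := hl _ _ hE02s
      simpa [hσ] using h
    have hS0 : R (S 0 : Ix n) := by
      have h := hs _ hE00l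
      simpa [f0, e0] using h
    have hD9 : R (D 9 : Ix n) := by
      have h := hs _ hS0
      simpa [f0, e0] using h
    have hS3 : R (S 3 : Ix n) := by
      have h := hs _ hD9
      simpa [f0, e0] using h
    have hD1 : R (D 1 : Ix n) := by
      have h := hs _ hS3
      simpa [f0, e0] using h
    have hD2 : R (D 2 : Ix n) := by
      have h := hs _ hD1
      simpa [f0, e0] using h
    have hS1 : R (S 1 : Ix n) := by
      have h := hs _ hD2
      simpa [f0, e0] using h
    have hD10 : R (D 10 : Ix n) := by
      have h := hs _ hS1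
      simpa [f0, e0] using h
    have hS5 : R (S 5 : Ix n) := by
      have h := hs _ hD10
      simpa [f0, e0] using h
    refine ⟨?_, ?_, ?_, hY⟩
    · rintro (_ | _) i <;> fin_cases i <;> assumption
    · intro q; fin_cases q <;> assumption
    · intro q hq; fin_cases q <;> first | assumption | exact absurd rfl hq

theorem reach0 (t : Ix n) (ht : t ≠ D 11) : Rc (f0 n) (V false) t := by
  obtain ⟨h1, h2, h3, h4⟩ := ends0 (n := n)
  obtain ⟨g1, g2, g3⟩ := all0 h1
  rcases t with ⟨L, i, k⟩ | ⟨L, i, k⟩ | q | ⟨L, i, k, u⟩ | q | b
  · exact g1 L i k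
  · exact g2 L i k
  · exact h2 q
  · exact g3 L i k u
  · exact h3 q (fun h => ht (by rw [h]))
  · cases b
    · exact Relation.ReflTransGen.refl
    · exact h4

/-! ### side 1 -/

def s1 (k : ℕ) : Fin 3 := if k % 2 = 0 then 0 else 2

theorem s1_succ (k : ℕ) : s1 (k + 1) = s1 k + o1 k := by
  rcases Nat.mod_two_eq_zero_or_one k with h | h
  · have h' : (k + 1) % 2 = 1 := by omega
    simp [s1, o1, h, h']
  · have h' : (k + 1) % 2 = 0 := by omega
    simp [s1, o1, h, h']

theorem step1 {a : Ix n} {L : Bool} {i : Fin 3} {k : Fin n} (h : Rc (f1 n) a (E L i k.succ)) :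
    Rc (f1 n) a (A L i k false) ∧ Rc (f1 n) a (A L (i + o1 k) k true) ∧
      Rc (f1 n) a (F L (i + o1 k) k) ∧ Rc (f1 n) a (E L (i + o1 k) k.castSucc) := by
  have h1 : Rc (f1 n) a (A L i k false) := by
    have := h.step; rwa [f1_E_succ] at this
  have h2 : Rc (f1 n) a (A L (i + o1 k) k true) := h1.step
  have h3 : Rc (f1 n) a (F L (i + o1 k) k) := h2.step
  exact ⟨h1, h2, h3, h3.step⟩

theorem lad1 {a : Ix n} {L : Bool} (k : ℕ) (hk : k < n + 1) :
    ∀ (m : ℕ) (i : Fin 3) (hm : k + m < n + 1), Rc (f1 n) a (E L i ⟨k + m, hm⟩) →
      Rc (f1 n) a (E L (i + s1 (k + m) - s1 k) ⟨k, hk⟩) := by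
  intro m
  induction m with
  | zero => intro i hm h; simpa using h
  | succ m ih =>
    intro i hm h
    have h1 := (step1 (k := ⟨k + m, by omega⟩) h).2.2.2
    have h2 := ih (i + o1 (k + m)) (by omega) h1
    have h3 : i + s1 (k + (m + 1)) - s1 k = i + o1 (k + m) + s1 (k + m) - s1 k := by
      rw [← add_assoc, s1_succ]; abel
    rw [h3]
    exact h2

theorem lad1' {a : Ix n} {L : Bool} {i : Fin 3} (h : Rc (f1 n) a (E L i (Fin.last n))) (k : ℕ)
    (hk : k < n + 1) : Rc (f1 n) a (E L (i + s1 n - s1 k) ⟨k, hk⟩) := by
  obtain ⟨m, hm⟩ : ∃ m, n = k + m := ⟨n - k, by omega⟩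
  have e : Fin.last n = ⟨k + m, by omega⟩ := by
    apply Fin.ext; simp; omega
  rw [e] at h
  have := lad1 k hk m i (by omega) h
  rwa [← hm] at this

theorem all1 {a : Ix n} (hE : ∀ L i, Rc (f1 n) a (E L i (Fin.last n))) :
    (∀ L i k, Rc (f1 n) a (E L i k)) ∧ (∀ L i k, Rc (f1 n) a (F L i k)) ∧
      (∀ L i k u, Rc (f1 n) a (A L i k u)) := by
  have h1 : ∀ L i k, Rc (f1 n) a (E L i k) := by
    intro L i k
    have := lad1' (hE L (i - s1 n + s1 k)) k k.2
    have e : i - s1 n + s1 k + s1 n - s1 k = i := by abel
    rwa [e] at this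
  refine ⟨h1, ?_, ?_⟩
  · intro L i k
    have := (step1 (h1 L (i - o1 k) k.succ)).2.2.1
    rwa [sub_add_cancel] at this
  · intro L i k u
    cases u
    · exact (step1 (h1 L i k.succ)).1
    · have := (step1 (h1 L (i - o1 k) k.succ)).2.1
      rwa [sub_add_cancel] at this

theorem ends1 : (∀ L i, Rc (f1 n) (V false) (E L i (Fin.last n))) ∧
    (∀ q, Rc (f1 n) (V false) (S q)) ∧
    (∀ q, q ≠ 11 → Rc (f1 n) (V false) (D q)) ∧ Rc (f1 n) (V false) (V true) := by
  set R : Ix n → Prop := Rc (f1 n) (V false) with hR
  have hX : R (V false) := Relation.ReflTransGen.refl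
  have hs : ∀ t, R t → R (f1 n t) := fun t h => h.step
  have hl : ∀ L i, R (E L i (Fin.last n)) → R (E L (i + s1 n) 0) := fun L i h => by
    have := lad1' h 0 (Nat.succ_pos n)
    simpa [s1] using this
  clear_value R
  rcases Nat.mod_two_eq_zero_or_one n with hn | hn
  · have hσ : s1 n = 0 := by simp [s1, hn]
    have hS5 : R (S 5 : Ix n) := by
      have h := hs _ hX
      simpa [f1, e1] using h
    have hS0 : R (S 0 : Ix n) := by
      have h := hs _ hS5
      simpa [f1, e1] using h
    have hD1 : R (D 1 : Ix n) := by
      have h := hs _ hS0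
      simpa [f1, e1] using h
    have hD7 : R (D 7 : Ix n) := by
      have h := hs _ hD1
      simpa [f1, e1] using h
    have hD4 : R (D 4 : Ix n) := by
      have h := hs _ hD7
      simpa [f1, e1] using h
    have hS2 : R (S 2 : Ix n) := by
      have h := hs _ hD4
      simpa [f1, e1] using h
    have hD3 : R (D 3 : Ix n) := by
      have h := hs _ hS2
      simpa [f1, e1] using h
    have hD0 : R (D 0 : Ix n) := by
      have h := hs _ hD3
      simpa [f1, e1] using h
    have hE00l : R (E false 0 (Fin.last n) : Ix n) := by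
      have h := hs _ hD0
      simpa [f1, e1] using h
    have hE00s : R (E false 0 0 : Ix n) := by
      have h := hl _ _ hE00l
      simpa [hσ] using h
    have hY : R (V true : Ix n) := by
      have h := hs _ hE00s
      simpa [f1, e1] using h
    have hE02l : R (E false 2 (Fin.last n) : Ix n) := by
      have h := hs _ hY
      simpa [f1, e1] using h
    have hE02s : R (E false 2 0 : Ix n) := by
      have h := hl _ _ hE02l
      simpa [hσ] using h
    have hS3 : R (S 3 : Ix n) := by
      have h := hs _ hE02s
      simpa [f1, e1] using h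
    have hS1 : R (S 1 : Ix n) := by
      have h := hs _ hS3
      simpa [f1, e1] using h
    have hE11l : R (E true 1 (Fin.last n) : Ix n) := by
      have h := hs _ hS1
      simpa [f1, e1] using h
    have hE11s : R (E true 1 0 : Ix n) := by
      have h := hl _ _ hE11l
      simpa [hσ] using h
    have hD10 : R (D 10 : Ix n) := by
      have h := hs _ hE11s
      simpa [f1, e1] using h
    have hE01l : R (E false 1 (Fin.last n) : Ix n) := by
      have h := hs _ hD10
      simpa [f1, e1] using h
    have hE01s : R (E false 1 0 : Ix n) := by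
      have h := hl _ _ hE01l
      simpa [hσ] using h
    have hS4 : R (S 4 : Ix n) := by
      have h := hs _ hE01s
      simpa [f1, e1] using h
    have hD9 : R (D 9 : Ix n) := by
      have h := hs _ hS4
      simpa [f1, e1] using h
    have hE10l : R (E true 0 (Fin.last n) : Ix n) := by
      have h := hs _ hD9
      simpa [f1, e1] using h
    have hE10s : R (E true 0 0 : Ix n) := by
      have h := hl _ _ hE10l
      simpa [hσ] using h
    have hD5 : R (D 5 : Ix n) := by
      have h := hs _ hE10s
      simpa [f1, e1] using h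
    have hD8 : R (D 8 : Ix n) := by
      have h := hs _ hD5
      simpa [f1, e1] using h
    have hD6 : R (D 6 : Ix n) := by
      have h := hs _ hD8
      simpa [f1, e1] using h
    have hD2 : R (D 2 : Ix n) := by
      have h := hs _ hD6
      simpa [f1, e1] using h
    have hE12l : R (E true 2 (Fin.last n) : Ix n) := by
      have h := hs _ hD2
      simpa [f1, e1] using h
    have hE12s : R (E true 2 0 : Ix n) := by
      have h := hl _ _ hE12l
      simpa [hσ] using h
    refine ⟨?_, ?_, ?_, hY⟩
    · rintro (_ | _) i <;> fin_cases i <;> assumption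
    · intro q; fin_cases q <;> assumption
    · intro q hq; fin_cases q <;> first | assumption | exact absurd rfl hq
  · have hσ : s1 n = 2 := by simp [s1, hn]
    have hS5 : R (S 5 : Ix n) := by
      have h := hs _ hX
      simpa [f1, e1] using h
    have hS0 : R (S 0 : Ix n) := by
      have h := hs _ hS5
      simpa [f1, e1] using h
    have hD1 : R (D 1 : Ix n) := by
      have h := hs _ hS0
      simpa [f1, e1] using h
    have hD7 : R (D 7 : Ix n) := by
      have h := hs _ hD1
      simpa [f1, e1] using h
    have hD4 : R (D 4 : Ix n) := by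
      have h := hs _ hD7
      simpa [f1, e1] using h
    have hS2 : R (S 2 : Ix n) := by
      have h := hs _ hD4
      simpa [f1, e1] using h
    have hD3 : R (D 3 : Ix n) := by
      have h := hs _ hS2
      simpa [f1, e1] using h
    have hD0 : R (D 0 : Ix n) := by
      have h := hs _ hD3
      simpa [f1, e1] using h
    have hE00l : R (E false 0 (Fin.last n) : Ix n) := by
      have h := hs _ hD0
      simpa [f1, e1] using h
    have hE02s : R (E false 2 0 : Ix n) := by
      have h := hl _ _ hE00l
      simpa [hσ] using h
    have hS3 : R (S 3 : Ix n) := by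
      have h := hs _ hE02s
      simpa [f1, e1] using h
    have hS1 : R (S 1 : Ix n) := by
      have h := hs _ hS3
      simpa [f1, e1] using h
    have hE11l : R (E true 1 (Fin.last n) : Ix n) := by
      have h := hs _ hS1
      simpa [f1, e1] using h
    have hE10s : R (E true 0 0 : Ix n) := by
      have h := hl _ _ hE11l
      simpa [hσ] using h
    have hD5 : R (D 5 : Ix n) := by
      have h := hs _ hE10s
      simpa [f1, e1] using h
    have hD8 : R (D 8 : Ix n) := by
      have h := hs _ hD5
      simpa [f1, e1] using h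
    have hD6 : R (D 6 : Ix n) := by
      have h := hs _ hD8
      simpa [f1, e1] using h
    have hD2 : R (D 2 : Ix n) := by
      have h := hs _ hD6
      simpa [f1, e1] using h
    have hE12l : R (E true 2 (Fin.last n) : Ix n) := by
      have h := hs _ hD2
      simpa [f1, e1] using h
    have hE11s : R (E true 1 0 : Ix n) := by
      have h := hl _ _ hE12l
      simpa [hσ] using h
    have hD10 : R (D 10 : Ix n) := by
      have h := hs _ hE11s
      simpa [f1, e1] using h
    have hE01l : R (E false 1 (Fin.last n) : Ix n) := by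
      have h := hs _ hD10
      simpa [f1, e1] using h
    have hE00s : R (E false 0 0 : Ix n) := by
      have h := hl _ _ hE01l
      simpa [hσ] using h
    have hY : R (V true : Ix n) := by
      have h := hs _ hE00s
      simpa [f1, e1] using h
    have hE02l : R (E false 2 (Fin.last n) : Ix n) := by
      have h := hs _ hY
      simpa [f1, e1] using h
    have hE01s : R (E false 1 0 : Ix n) := by
      have h := hl _ _ hE02l
      simpa [hσ] using h
    have hS4 : R (S 4 : Ix n) := by
      have h := hs _ hE01s
      simpa [f1, e1] using h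
    have hD9 : R (D 9 : Ix n) := by
      have h := hs _ hS4
      simpa [f1, e1] using h
    have hE10l : R (E true 0 (Fin.last n) : Ix n) := by
      have h := hs _ hD9
      simpa [f1, e1] using h
    have hE12s : R (E true 2 0 : Ix n) := by
      have h := hl _ _ hE10l
      simpa [hσ] using h
    refine ⟨?_, ?_, ?_, hY⟩
    · rintro (_ | _) i <;> fin_cases i <;> assumption
    · intro q; fin_cases q <;> assumption
    · intro q hq; fin_cases q <;> first | assumption | exact absurd rfl hq

theorem reach1 (t : Ix n) (ht : t ≠ D 11) : Rc (f1 n) (V false) t := by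
  obtain ⟨h1, h2, h3, h4⟩ := ends1 (n := n)
  obtain ⟨g1, g2, g3⟩ := all1 h1
  rcases t with ⟨L, i, k⟩ | ⟨L, i, k⟩ | q | ⟨L, i, k, u⟩ | q | b
  · exact g1 L i k
  · exact g2 L i k
  · exact h2 q
  · exact g3 L i k u
  · exact h3 q (fun h => ht (by rw [h]))
  · cases b
    · exact Relation.ReflTransGen.refl
    · exact h4

end Pool.Agent.H63.KG
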