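import Pool.Agent.H63.KG.Family3

/-!
# The rotation scheme of the family
-/

set_option autoImplicit false
set_option linter.unusedSectionVars false
set_option linter.style.haveILetI false
set_option linter.unusedSimpArgs false

namespace Pool.Agent.H63.KG

open Ix Equiv

variable {n : ℕ}

theorem bij_of_reach (f : Ix n → Ix n) (h11 : f (D 11) = D 11) (a : Ix n) (ha : f a = V false)
    (hr : ∀ t, t ≠ D 11 → Rc f (V false) t) : Function.Bijective f := by
  haveI : Finite (Ix n) := inferInstance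
  rw [← Finite.surjective_iff_bijective]
  intro t
  by_cases h : t = D 11
  · exact ⟨D 11, by rw [h, h11]⟩
  rcases Relation.ReflTransGen.cases_tail (hr t h) with h' | ⟨c, _, hc⟩
  · exact ⟨a, by rw [ha, h']⟩
  · exact ⟨c, hc⟩

theorem f0_bij : Function.Bijective (f0 n) :=
  bij_of_reach _ rfl (S 5) rfl reach0

theorem f1_bij : Function.Bijective (f1 n) :=
  bij_of_reach _ rfl (E true 2 0) (by simp [e1]) reach1

noncomputable def P0 (n : ℕ) : Perm (ZMod (24 * (n + 1)) ⊕ Bool) :=
  (Equiv.ofBijective _ (lab0_bij (n := n))).permCongr (Equiv.ofBijective _ f0_bij)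

noncomputable def P1 (n : ℕ) : Perm (ZMod (24 * (n + 1)) ⊕ Bool) :=
  (Equiv.ofBijective _ (lab1_bij (n := n))).permCongr (Equiv.ofBijective _ f1_bij)

theorem P0_lab (t : Ix n) : P0 n (lab0 n t) = lab0 n (f0 n t) := by
  have h : (Equiv.ofBijective _ (lab0_bij (n := n))).symm (lab0 n t) = t := by
    rw [Equiv.symm_apply_eq]; rfl
  simp only [P0, Equiv.permCongr_apply, h]
  rfl

theorem P1_lab (t : Ix n) : P1 n (lab1 n t) = lab1 n (f1 n t) := by
  have h : (Equiv.ofBijective _ (lab1_bij (n := n))).symm (lab1 n t) = t := by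
    rw [Equiv.symm_apply_eq]; rfl
  simp only [P1, Equiv.permCongr_apply, h]
  rfl

theorem pow_of_rc {P : Perm (ZMod (24 * (n + 1)) ⊕ Bool)} {f : Ix n → Ix n}
    {lab : Ix n → ZMod (24 * (n + 1)) ⊕ Bool} (hP : ∀ t, P (lab t) = lab (f t)) {a b : Ix n}
    (h : Rc f a b) : ∃ m : ℕ, (P ^ m) (lab a) = lab b := by
  induction h with
  | refl => exact ⟨0, rfl⟩
  | tail _ hbc ih =>
    obtain ⟨m, hm⟩ := ih
    refine ⟨m + 1, ?_⟩
    rw [pow_succ', Perm.mul_apply, hm, hP, hbc]

theorem two_dvd (n : ℕ) : 2 ∣ 24 * (n + 1) := ⟨12 * (n + 1), by ring⟩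

theorem par_two : par (24 * (n + 1)) (two_dvd n) 2 = 0 := by
  rw [map_ofNat]; decide

theorem par_labZ0 (t : Ix n) :
    par (24 * (n + 1)) (two_dvd n) (labZ0 n t : ZMod (24 * (n + 1))) =
      if isOdd t then 1 else 0 := by
  unfold labZ0
  cases isOdd t <;> simp [par_two]

theorem par_labZ1 (t : Ix n) :
    par (24 * (n + 1)) (two_dvd n) (labZ1 n t : ZMod (24 * (n + 1))) =
      if isOdd t then 1 else 0 := by
  have h3 : (-1 : ZMod 2) = 1 := by decide
  unfold labZ1
  cases isOdd t <;> simp [par_two, h3]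

theorem labZ1_odd {t : Ix n} (h : isOdd t = true) : labZ1 n t = -labZ0 n t := by
  simp [labZ0, labZ1, h]

theorem lab0_11 : lab0 n (D 11) = Sum.inl 0 := by
  rw [lab0_of _ rfl]
  simp [labZ0, isOdd, mZ0, d0]

theorem lab1_11 : lab1 n (D 11) = Sum.inl 0 := by
  rw [lab1_of _ rfl]
  simp [labZ1, isOdd, mZ1, d1]

theorem isV_of_lab0 {t : Ix n} {d : ZMod (24 * (n + 1))} (h : lab0 n t = Sum.inl d) :
    isV t = false := by
  rcases t with _ | _ | _ | _ | _ | _ <;> first | rfl | simp [lab0] at h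

theorem isV_of_lab1 {t : Ix n} {d : ZMod (24 * (n + 1))} (h : lab1 n t = Sum.inl d) :
    isV t = false := by
  rcases t with _ | _ | _ | _ | _ | _ <;> first | rfl | simp [lab1] at h

theorem isV_rv (t : Ix n) : isV (rv t) = isV t := by
  rcases t with _ | _ | _ | _ | _ | _ <;> rfl

/-- triangle rule at class 0 -/
theorem rule0 (d e : ZMod (24 * (n + 1))) (hd : d ≠ 0) (h : P0 n (Sum.inl d) = Sum.inl e) :
    (par _ (two_dvd n) e = 1 → P1 n (Sum.inl (-e)) = Sum.inl (d - e)) ∧
    (par _ (two_dvd n) e = 0 → P0 n (Sum.inl (-e)) = Sum.inl (d - e)) := by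
  obtain ⟨t, ht⟩ := lab0_surj (n := n) (Sum.inl d)
  rw [← ht, P0_lab] at h
  have hv := isV_of_lab0 ht
  have hv' := isV_of_lab0 h
  have h11 : t ≠ D 11 := by
    rintro rfl
    rw [lab0_11] at ht
    exact hd (Sum.inl_injective ht).symm
  have hk := kcl0 t hv h11 hv'
  rw [lab0_of _ hv] at ht
  rw [lab0_of _ hv'] at h
  have hde := Sum.inl_injective ht
  have hee := Sum.inl_injective h
  subst hde hee
  rw [par_labZ0]
  constructor
  · intro hp
    have ho : isOdd (f0 n t) = true := by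
      by_contra hc
      simp [hc] at hp
    obtain ⟨hv2, hc2⟩ := hk.1 ho
    have e1 : Sum.inl (-(labZ0 n (f0 n t) : ZMod (24 * (n + 1)))) = lab1 n (f0 n t) := by
      rw [lab1_of _ hv', labZ1_odd ho]; push_cast; rfl
    rw [e1, P1_lab, lab1_of _ hv2, hc2.cast]
    push_cast; rfl
  · intro hp
    have ho : isOdd (f0 n t) = false := by
      by_contra hc
      simp [hc] at hp
    obtain ⟨hv2, hc2⟩ := hk.2 ho
    have e1 : Sum.inl (-(labZ0 n (f0 n t) : ZMod (24 * (n + 1)))) = lab0 n (rv (f0 n t)) := by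
      rw [lab0_of _ (by rw [isV_rv, hv']), (rv0 _ hv' ho).cast]; push_cast; rfl
    rw [e1, P0_lab, lab0_of _ hv2, hc2.cast]
    push_cast; rfl

/-- triangle rule at class 1 -/
theorem rule1 (d e : ZMod (24 * (n + 1))) (hd : d ≠ 0) (h : P1 n (Sum.inl d) = Sum.inl e) :
    (par _ (two_dvd n) e = 1 → P0 n (Sum.inl (-e)) = Sum.inl (d - e)) ∧
    (par _ (two_dvd n) e = 0 → P1 n (Sum.inl (-e)) = Sum.inl (d - e)) := by
  obtain ⟨t, ht⟩ := lab1_surj (n := n) (Sum.inl d)
  rw [← ht, P1_lab] at h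
  have hv := isV_of_lab1 ht
  have hv' := isV_of_lab1 h
  have h11 : t ≠ D 11 := by
    rintro rfl
    rw [lab1_11] at ht
    exact hd (Sum.inl_injective ht).symm
  have hk := kcl1 t hv h11 hv'
  rw [lab1_of _ hv] at ht
  rw [lab1_of _ hv'] at h
  have hde := Sum.inl_injective ht
  have hee := Sum.inl_injective h
  subst hde hee
  rw [par_labZ1]
  constructor
  · intro hp
    have ho : isOdd (f1 n t) = true := by
      by_contra hc
      simp [hc] at hp
    obtain ⟨hv2, hc2⟩ := hk.1 ho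
    have e1 : Sum.inl (-(labZ1 n (f1 n t) : ZMod (24 * (n + 1)))) = lab0 n (f1 n t) := by
      rw [lab0_of _ hv', labZ1_odd ho]; push_cast; rw [neg_neg]
    rw [e1, P0_lab, lab0_of _ hv2, hc2.cast]
    push_cast; rfl
  · intro hp
    have ho : isOdd (f1 n t) = false := by
      by_contra hc
      simp [hc] at hp
    obtain ⟨hv2, hc2⟩ := hk.2 ho
    have e1 : Sum.inl (-(labZ1 n (f1 n t) : ZMod (24 * (n + 1)))) = lab1 n (rv (f1 n t)) := by
      rw [lab1_of _ (by rw [isV_rv, hv']), (rv1 _ hv' ho).cast]; push_cast; rfl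
    rw [e1, P1_lab, lab1_of _ hv2, hc2.cast]
    push_cast; rfl

/-- the odd differences next to the two extra vertices -/
def Dz (n : ℕ) : Bool → ZMod 2 → ℤ
  | false, i => if i = 0 then 2 * (10 * (n + 1) + 1) + 1 else -(2 * (4 * (n + 1)) + 1)
  | true, i => if i = 0 then 2 * (4 * (n + 1) + 1 + 2 * n) + 1 else -1

theorem one_ne_zero_z2 : (1 : ZMod 2) ≠ 0 := by decide

noncomputable def scheme (n : ℕ) : Scheme (24 * (n + 1)) (two_dvd n) where
  P i := if i = 0 then P0 n else P1 n
  fix0 i := by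
    split_ifs
    · rw [← lab0_11, P0_lab]; rfl
    · rw [← lab1_11, P1_lab]; rfl
  reach i t ht := by
    split_ifs
    · obtain ⟨t', rfl⟩ := lab0_surj (n := n) t
      exact pow_of_rc P0_lab (reach0 t' (by rintro rfl; exact ht lab0_11))
    · obtain ⟨t', rfl⟩ := lab1_surj (n := n) t
      exact pow_of_rc P1_lab (reach1 t' (by rintro rfl; exact ht lab1_11))
  rule i d e hd h := by
    rcases zmod2_cases i with rfl | rfl
    · rw [if_pos rfl] at h
      rcases zmod2_cases (par _ (two_dvd n) e) with he | he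
      · rw [he, add_zero, if_pos rfl]; exact (rule0 d e hd h).2 he
      · rw [he, zero_add, if_neg one_ne_zero_z2]; exact (rule0 d e hd h).1 he
    · rw [if_neg one_ne_zero_z2] at h
      rcases zmod2_cases (par _ (two_dvd n) e) with he | he
      · rw [he, add_zero, if_neg one_ne_zero_z2]; exact (rule1 d e hd h).2 he
      · rw [he, zmod2_add_self, if_pos rfl]; exact (rule1 d e hd h).1 he
  D b i := (Dz n b i : ZMod (24 * (n + 1)))
  parD b i := by
    have h3 : (-1 : ZMod 2) = 1 := by decide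
    rcases zmod2_cases i with rfl | rfl <;> cases b <;> simp [Dz, par_two, h3]
  hD1 b i := by
    rcases zmod2_cases i with rfl | rfl
    · rw [if_pos rfl]
      cases b
      · have : (Sum.inl (Dz n false 0 : ZMod (24 * (n + 1))) : _ ⊕ Bool) = lab0 n (S 5) := by
          rw [lab0_of _ rfl]; simp [Dz, labZ0, isOdd, zZ, sg]
        rw [this, P0_lab]; rfl
      · have : (Sum.inl (Dz n true 0 : ZMod (24 * (n + 1))) : _ ⊕ Bool) =
            lab0 n (E false 2 (Fin.last n)) := by
          rw [lab0_of _ rfl]; simp [Dz, labZ0, isOdd, zZ, z0, gg]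
        rw [this, P0_lab, f0_E_last]; rfl
    · rw [if_neg one_ne_zero_z2]
      cases b
      · have : (Sum.inl (Dz n false 1 : ZMod (24 * (n + 1))) : _ ⊕ Bool) =
            lab1 n (E true 2 0) := by
          rw [lab1_of _ rfl]; simp [Dz, labZ1, isOdd, zZ, z0, gg]
        rw [this, P1_lab, f1_E_zero]; rfl
      · have : (Sum.inl (Dz n true 1 : ZMod (24 * (n + 1))) : _ ⊕ Bool) =
            lab1 n (E false 0 0) := by
          rw [lab1_of _ rfl]; simp [Dz, labZ1, isOdd, zZ, z0, gg]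
        rw [this, P1_lab, f1_E_zero]; rfl
  hD2 b i := by
    rcases zmod2_cases i with rfl | rfl
    · rw [zero_add, if_neg one_ne_zero_z2]
      cases b
      · rw [show (Sum.inr false : ZMod (24 * (n + 1)) ⊕ Bool) = lab1 n (V false) from rfl, P1_lab]
        show lab1 n (S 5) = _
        rw [lab1_of _ rfl]; simp [Dz, labZ1, isOdd, zZ, sg]
      · rw [show (Sum.inr true : ZMod (24 * (n + 1)) ⊕ Bool) = lab1 n (V true) from rfl, P1_lab]
        show lab1 n (E false 2 (Fin.last n)) = _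
        rw [lab1_of _ rfl]; simp [Dz, labZ1, isOdd, zZ, z0, gg]
    · rw [zmod2_add_self, if_pos rfl]
      cases b
      · rw [show (Sum.inr false : ZMod (24 * (n + 1)) ⊕ Bool) = lab0 n (V false) from rfl, P0_lab]
        show lab0 n (E true 2 0) = _
        rw [lab0_of _ rfl]; simp [Dz, labZ0, isOdd, zZ, z0, gg]
      · rw [show (Sum.inr true : ZMod (24 * (n + 1)) ⊕ Bool) = lab0 n (V true) from rfl, P0_lab]
        show lab0 n (E false 0 0) = _
        rw [lab0_of _ rfl]; simp [Dz, labZ0, isOdd, zZ, z0, gg]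
  gen b := by
    have h0 : ((24 * (n + 1) : ℕ) : ZMod (24 * (n + 1))) = 0 := ZMod.natCast_self _
    push_cast at h0
    cases b
    · refine ⟨6 * (n + 1) + 1, ?_⟩
      simp only [Dz, if_true, if_neg one_ne_zero_z2, nsmul_eq_mul]
      push_cast
      linear_combination (3 * (n + 1 : ZMod (24 * (n + 1))) + 1) * h0
    · refine ⟨6 * (n + 1) - 1, ?_⟩
      simp only [Dz, if_true, if_neg one_ne_zero_z2, nsmul_eq_mul]
      rw [show 6 * (n + 1) - 1 = 6 * n + 5 by omega]
      push_cast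
      linear_combination (3 * (n + 1 : ZMod (24 * (n + 1))) - 1) * h0

end Pool.Agent.H63.KG
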