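import Pool.Agent.H63.KG.Family4

/-!
# The genus of `K_n` minus an edge, `n ≡ 2 (mod 24)`
-/

set_option autoImplicit false
set_option linter.unusedSectionVars false
set_option linter.style.haveILetI false
set_option linter.unusedSimpArgs false

namespace Pool.Agent.H63.KG

open Equiv

theorem isCycleOn_permCongr {V W : Type*} (e : V ≃ W) (f : Perm V) (s : Set V)
    (h : f.IsCycleOn s) : (e.permCongr f).IsCycleOn (e '' s) := by
  have key : ∀ (k : ℤ) (x : V), ((e.permCongr f) ^ k) (e x) = e ((f ^ k) x) := by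
    intro k x
    have h1 : (e.permCongr f) ^ k = e.permCongr (f ^ k) :=
      (map_zpow e.permCongrHom f k).symm
    rw [h1, Equiv.permCongr_apply, Equiv.symm_apply_apply]
  refine ⟨⟨?_, (e.permCongr f).injective.injOn, ?_⟩, ?_⟩
  · rintro _ ⟨x, hx, rfl⟩
    rw [Equiv.permCongr_apply, Equiv.symm_apply_apply]
    exact ⟨f x, h.1.mapsTo hx, rfl⟩
  · rintro _ ⟨y, hy, rfl⟩
    obtain ⟨x, hx, rfl⟩ := h.1.surjOn hy
    exact ⟨e x, ⟨x, hx, rfl⟩, by rw [Equiv.permCongr_apply, Equiv.symm_apply_apply]⟩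
  · rintro _ ⟨x, hx, rfl⟩ _ ⟨y, hy, rfl⟩
    obtain ⟨k, hk⟩ := h.2 hx hy
    exact ⟨k, by rw [key, hk]⟩

/-- the complete graph on `W` minus the edge `u v` -/
abbrev Kminus (W : Type*) (u v : W) : SimpleGraph W := (⊤ : SimpleGraph W).deleteEdges {s(u, v)}

theorem kminus_adj {W : Type*} (u v x y : W) :
    (Kminus W u v).Adj x y ↔ x ≠ y ∧ s(x, y) ≠ s(u, v) := by
  simp [Kminus, SimpleGraph.deleteEdges_adj]

/-- a triangular rotation system of the complete graph on `24 (m + 1) + 2` vertices minus an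
edge -/
theorem exists_triangular {W : Type*} [Fintype W] (m : ℕ)
    (hW : Fintype.card W = 24 * (m + 1) + 2) (u v : W) (huv : u ≠ v) :
    ∃ π : W → Perm W, IsRotation (Kminus W u v) π ∧
      ∀ x y, (Kminus W u v).Adj x y → π (π y x) y = x := by
  classical
  set N := 24 * (m + 1) with hN
  have hcard : Fintype.card (ZMod N ⊕ Bool) = Fintype.card W := by
    rw [Fintype.card_sum, ZMod.card, Fintype.card_bool, hW]
  let e1 : (ZMod N ⊕ Bool) ≃ W := Fintype.equivOfCardEq hcard
  let e2 : (ZMod N ⊕ Bool) ≃ W := e1.trans (Equiv.swap (e1 (Sum.inr false)) u)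
  let e : (ZMod N ⊕ Bool) ≃ W := e2.trans (Equiv.swap (e2 (Sum.inr true)) v)
  have he2 : e2 (Sum.inr false) = u := by simp [e2]
  have het : e (Sum.inr true) = v := by simp [e]
  have hef : e (Sum.inr false) = u := by
    show Equiv.swap (e2 (Sum.inr true)) v (e2 (Sum.inr false)) = u
    rw [he2]
    apply Equiv.swap_apply_of_ne_of_ne _ huv
    rw [← he2]
    intro h
    have := e2.injective h
    simp at this
  have hadj : ∀ a b, (Kminus W u v).Adj (e a) (e b) ↔ (KG N).Adj a b := by
    intro a b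
    rw [kminus_adj]
    show _ ↔ a ≠ b ∧ ¬ (a.isRight = true ∧ b.isRight = true)
    rw [← hef, ← het]
    refine ⟨fun ⟨h1, h2⟩ => ⟨fun h => h1 (by rw [h]), ?_⟩, fun ⟨h1, h2⟩ =>
      ⟨fun h => h1 (e.injective h), ?_⟩⟩
    · rintro ⟨ha, hb⟩
      rcases a with a | a
      · simp at ha
      rcases b with b | b
      · simp at hb
      apply h2
      have hab : a ≠ b := fun h => h1 (by rw [h])
      cases a <;> cases b
      · exact absurd rfl hab
      · rfl
      · exact Sym2.eq_swap
      · exact absurd rfl hab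
    · intro h
      apply h2
      rw [Sym2.eq_iff] at h
      rcases h with ⟨ha, hb⟩ | ⟨ha, hb⟩
      · rw [e.injective ha, e.injective hb]; exact ⟨rfl, rfl⟩
      · rw [e.injective ha, e.injective hb]; exact ⟨rfl, rfl⟩
  let S := scheme m
  refine ⟨fun w => e.permCongr (S.π (e.symm w)), ?_, ?_⟩
  · intro w
    have h := isCycleOn_permCongr e _ _ (S.isRotation (e.symm w))
    have hs : e '' ((KG N).neighborSet (e.symm w)) = (Kminus W u v).neighborSet w := by
      ext z
      constructor
      · rintro ⟨a, ha, rfl⟩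
        have := (hadj (e.symm w) a).2 ha
        rwa [Equiv.apply_symm_apply] at this
      · intro hz
        refine ⟨e.symm z, ?_, by simp⟩
        have hz' : (Kminus W u v).Adj (e (e.symm w)) (e (e.symm z)) := by
          simpa using hz
        exact (hadj _ _).1 hz'
    rw [hs] at h
    exact h
  · intro x y hxy
    have h1 : (KG N).Adj (e.symm x) (e.symm y) := by
      rw [← hadj]; simpa using hxy
    have h2 := S.tri _ _ h1
    simp only [Equiv.permCongr_apply, Equiv.symm_apply_apply]
    rw [h2, Equiv.apply_symm_apply]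

theorem card_edges_kminus {W : Type*} [Fintype W] (u v : W) (huv : u ≠ v) :
    Nat.card (Kminus W u v).edgeSet = (Fintype.card W).choose 2 - 1 := by
  classical
  have h1 : (Kminus W u v).edgeSet = (⊤ : SimpleGraph W).edgeSet \ {s(u, v)} :=
    SimpleGraph.edgeSet_deleteEdges _
  have hmem : s(u, v) ∈ (⊤ : SimpleGraph W).edgeSet := by
    rw [SimpleGraph.mem_edgeSet]; exact huv
  rw [h1, Nat.card_coe_set_eq, Set.ncard_diff_singleton_of_mem hmem]
  congr 1
  rw [← SimpleGraph.card_edgeFinset_top_eq_card_choose_two, SimpleGraph.edgeFinset,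
    Set.ncard_eq_toFinset_card']

theorem two_le_degree {W : Type*} [Fintype W] (hW : 5 ≤ Fintype.card W) (u v : W) :
    ∀ x y, (Kminus W u v).Adj x y → ∃ y', (Kminus W u v).Adj x y' ∧ y' ≠ y := by
  classical
  intro x y _
  have : ∃ z, z ∉ ({x, y, u, v} : Finset W) := by
    by_contra hc
    push Not at hc
    have h1 : (Finset.univ : Finset W) ⊆ {x, y, u, v} := fun z _ => hc z
    have h2 := Finset.card_le_card h1
    have h3 := Finset.card_le_four (a := x) (b := y) (c := u) (d := v)
    rw [Finset.card_univ] at h2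
    omega
  obtain ⟨z, hz⟩ := this
  simp only [Finset.mem_insert, Finset.mem_singleton, not_or] at hz
  refine ⟨z, ?_, hz.2.1⟩
  rw [kminus_adj]
  refine ⟨fun h => hz.1 h.symm, ?_⟩
  intro h
  rw [Sym2.eq_iff] at h
  rcases h with ⟨_, h⟩ | ⟨_, h⟩
  · exact hz.2.2.2 h
  · exact hz.2.2.1 h

/-- the genus of the complete graph on `24 s + 2` vertices minus an edge is `48 s² - 6 s` -/
theorem genus_kminus {W : Type*} [Fintype W] (m : ℕ)
    (hW : Fintype.card W = 24 * (m + 1) + 2) (u v : W) (huv : u ≠ v) :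
    (orientableGenus (Kminus W u v) : ℤ) = 48 * (m + 1) ^ 2 - 6 * (m + 1) := by
  classical
  have hdeg := two_le_degree (by omega) u v
  have hE : (Nat.card (Kminus W u v).edgeSet : ℤ) = 288 * (m + 1) ^ 2 + 36 * (m + 1) := by
    rw [card_edges_kminus u v huv, hW]
    have h1 : (24 * (m + 1) + 2).choose 2 = 288 * (m + 1) ^ 2 + 36 * (m + 1) + 1 := by
      rw [Nat.choose_two_right]
      apply Nat.div_eq_of_eq_mul_left (by norm_num)
      rw [show 24 * (m + 1) + 2 - 1 = 24 * (m + 1) + 1 by omega]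
      ring
    rw [h1]; push_cast; ring
  have hV : (Nat.card W : ℤ) = 24 * (m + 1) + 2 := by
    rw [Nat.card_eq_fintype_card, hW]; push_cast; ring
  obtain ⟨g, hg⟩ : ∃ g : ℕ, (g : ℤ) = 48 * (m + 1) ^ 2 - 6 * (m + 1) :=
    ⟨48 * (m + 1) ^ 2 - 6 * (m + 1), by
      have : 6 * (m + 1) ≤ 48 * (m + 1) ^ 2 := by nlinarith
      push_cast [Nat.cast_sub this]; ring⟩
  rw [← hg]
  congr 1
  apply le_antisymm
  · apply Nat.sInf_le
    obtain ⟨π, h1, h2⟩ := exists_triangular m hW u v huv
    refine ⟨π, h1, ?_⟩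
    have h3 := three_mul_numFaces_eq h1 hdeg h2
    have h3' : 3 * (numFaces (Kminus W u v) π : ℤ) = 2 * (Nat.card (Kminus W u v).edgeSet : ℤ) := by
      exact_mod_cast h3
    rw [hE] at h3'
    rw [hE, hV, hg]
    linarith
  · apply le_csInf
    · obtain ⟨π, h1, h2⟩ := exists_triangular m hW u v huv
      refine ⟨g, π, h1, ?_⟩
      have h3 := three_mul_numFaces_eq h1 hdeg h2
      have h3' : 3 * (numFaces (Kminus W u v) π : ℤ) =
          2 * (Nat.card (Kminus W u v).edgeSet : ℤ) := by
        exact_mod_cast h3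
      rw [hE] at h3'
      rw [hE, hV, hg]
      linarith
    · rintro g' ⟨π, h1, h2⟩
      have h3 := three_mul_numFaces_le h1 hdeg
      have h3' : 3 * (numFaces (Kminus W u v) π : ℤ) ≤
          2 * (Nat.card (Kminus W u v).edgeSet : ℤ) := by
        exact_mod_cast h3
      rw [hE] at h3' h2
      rw [hV] at h2
      have : (g : ℤ) ≤ g' := by linarith
      exact_mod_cast this

end Pool.Agent.H63.KG
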