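import Pool.Agent.H63.KG.Final

/-!
# MP_a803c6_co (Q1): the orientable genus of `K_n - K_2` for every `n ≡ 2 (mod 24)`

For `n = 24 s + 2` we construct, for every `s ≥ 1`, a triangular orientable embedding of the
complete graph on `n` vertices minus an edge: two vertices `x`, `y` (the ends of the missing edge)
and the residues modulo `24 s`, with a cyclic symmetry of order `12 s` (an index-two current graph
built from two three-rail ladders).  Euler's formula then gives the genus `48 s² - 6 s`.
-/

set_option autoImplicit false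

namespace Pool.Agent.H63.KG.GenusOfKnMinusEdge

open Pool.Agent.H63.KG

/-- **Q1, full answer (the identity holds).**  For every `n ≥ 3` with `n ≡ 2 (mod 24)`, the
orientable genus of the complete graph on `n` vertices with one edge deleted equals
`⌈((n - 3)(n - 4) - 2) / 12⌉`. -/
theorem genus_kn_minus_edge : ∀ n : ℕ, 3 ≤ n → n % 24 = 2 → ∀ u v : Fin n, u ≠ v →
    (orientableGenus ((⊤ : SimpleGraph (Fin n)).deleteEdges {s(u, v)}) : ℤ) =
      ⌈(((n : ℝ) - 3) * ((n : ℝ) - 4) - 2) / 12⌉ := by
  intro n hn hmod u v huv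
  obtain ⟨m, hm⟩ : ∃ m, n = 24 * (m + 1) + 2 := ⟨n / 24 - 1, by omega⟩
  have h := genus_kminus m (by rw [Fintype.card_fin, hm]) u v huv
  rw [h]
  symm
  have hr : (((n : ℝ) - 3) * ((n : ℝ) - 4) - 2) / 12 =
      ((48 * ((m : ℤ) + 1) ^ 2 - 6 * ((m : ℤ) + 1) : ℤ) : ℝ) := by
    rw [hm]; push_cast; ring
  rw [hr, Int.ceil_intCast]

end Pool.Agent.H63.KG.GenusOfKnMinusEdge
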